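import Pool.Agent.H439.QD.Pat

/-!
# The large primes: quadratic twists and the random model
-/

set_option autoImplicit false
set_option linter.unusedSectionVars false
set_option linter.unusedVariables false

namespace Pool.Agent.H439.QD

open Finset Complex ComplexConjugate Filter Topology MeasureTheory ProbabilityTheory
  Pool.Agent.H439.LS Pool.Agent.H439.SP Pool.Agent.H439.LL Pool.Agent.A856.QF

lemma PG_qg {a : ℕ → ℂ} (h2 : a 2 = 0) {m : ℤ} (hm : m ≠ 0) (t ε : ℝ) :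
    PG a (qg m t) (1 + (ε : ℂ)) = LS.PS a (kchar m hm) (1 + (ε : ℂ) + (t : ℂ) * I) := by
  unfold PG LS.PS
  apply tsum_congr
  intro p
  by_cases hp2 : (p : ℕ) = 2
  · rw [hp2, h2, zero_mul, zero_mul]
  · rw [cpow_split p.2.pos]
    have h1 : ((p : ℕ) : ℂ) ^ (-(1 + (ε : ℂ))) = ((((p : ℕ) : ℝ) ^ (-(1 + ε)) : ℝ) : ℂ) := by
      rw [Complex.ofReal_cpow (Nat.cast_nonneg _)]
      push_cast
      rfl
    rw [h1, kchar_prime hm p.2 hp2]
    unfold qg
    rw [qc_prime m p.2]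
    ring

/-- **The large primes, for the quadratic twists.** -/
theorem q_tail {δ A M θ : ℝ} (hδ : 0 < δ) (hδ1 : δ ≤ 1) (hA : 1 ≤ A) (hM : 0 < M) (hθ : 0 < θ)
    {Y : ℕ} (hY : 2 ≤ Y) :
    ∃ X₀ : ℕ, ∀ x : ℕ, X₀ ≤ x → ∀ t : ℝ, |t| ≤ (x : ℝ) ^ A → ∀ ε : ℝ,
      Real.exp (-(x : ℝ) ^ (δ / 8)) ≤ ε → ε ≤ 1 / 2 → ∀ a : ℕ → ℂ,
      (∀ p : ℕ, p.Prime → ‖a p‖ ≤ M) → (∀ p : ℕ, p.Prime → p ≤ Y → a p = 0) →
      ∀ B : Finset ℤ, B ⊆ SF x → (∀ m ∈ B, θ ≤ ‖PG a (qg m t) (1 + (ε : ℂ))‖) →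
      (B.card : ℝ) ≤ (x : ℝ) ^ δ + x * (16 * M ^ 2 / (Y * θ ^ 2)) := by
  classical
  set A' : ℝ := 2 * A with hA'
  have hA0 : 0 < A' := by linarith
  set δ' : ℝ := δ / A' with hδ'
  have hδ'0 : 0 < δ' := by positivity
  have hδ'1 : δ' ≤ 1 := by
    rw [hδ', div_le_one hA0]
    linarith
  have hY0 : (0 : ℝ) < Y := by exact_mod_cast (by omega : 0 < Y)
  have hev := short_PS hδ'0 hδ'1 hM
  have hlog : Tendsto (fun x : ℕ => A' * Real.log (x : ℝ)) atTop atTop :=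
    (Real.tendsto_log_atTop.comp tendsto_natCast_atTop_atTop).const_mul_atTop hA0
  have hz : ∀ᶠ x : ℕ in atTop, Y * ((A' * Real.log (x : ℝ)) ^ (240 / δ')) ^ 2 ≤ (x : ℝ) := by
    have h1 := (isLittleO_log_rpow_rpow_atTop (240 / δ' * 2) one_pos)
    have h2 : Tendsto (fun x : ℝ => Real.log x ^ (240 / δ' * 2) / x ^ (1 : ℝ)) atTop (𝓝 0) :=
      h1.tendsto_div_nhds_zero
    have h3 : Tendsto (fun x : ℕ => (Y * A' ^ (240 / δ' * 2)) *
        (Real.log (x : ℝ) ^ (240 / δ' * 2) / (x : ℝ) ^ (1 : ℝ)))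
        atTop (𝓝 ((Y * A' ^ (240 / δ' * 2)) * 0)) :=
      (h2.comp tendsto_natCast_atTop_atTop).const_mul _
    rw [mul_zero] at h3
    filter_upwards [h3.eventually (gt_mem_nhds one_pos), eventually_ge_atTop 2] with x hx hx2
    have hx0 : (0 : ℝ) < x := by exact_mod_cast (by omega : 0 < x)
    have hlx : 0 ≤ Real.log x := Real.log_natCast_nonneg x
    rw [Real.rpow_one, ← mul_div_assoc, div_lt_one hx0] at hx
    have h4 : ((A' * Real.log (x : ℝ)) ^ (240 / δ')) ^ 2 =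
        A' ^ (240 / δ' * 2) * Real.log (x : ℝ) ^ (240 / δ' * 2) := by
      rw [← Real.rpow_natCast, ← Real.rpow_mul (by positivity), Real.mul_rpow hA0.le hlx]
      norm_num
    rw [h4, ← mul_assoc]
    exact hx.le
  obtain ⟨X₀, hX₀⟩ := eventually_atTop.1 ((hlog.eventually hev).and (hz.and
    ((hlog.eventually (eventually_ge_atTop (1 / (2 * θ)))).and
      ((hlog.eventually (eventually_ge_atTop 1)).and (eventually_ge_atTop 4)))))
  refine ⟨X₀, fun x hx t ht ε hε0 hε1 a ha haY B hBS hB => ?_⟩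
  obtain ⟨hshort, hzx, hℓθ, hℓ1, hx4⟩ := hX₀ x hx
  set ℓ : ℝ := A' * Real.log (x : ℝ) with hℓ
  have hx0 : (0 : ℝ) < x := by exact_mod_cast (by omega : 0 < x)
  have hx4' : (4 : ℝ) ≤ x := by exact_mod_cast hx4
  have hx1 : (1 : ℝ) ≤ x := by linarith
  have hexp : ∀ y : ℝ, Real.exp (y * Real.log x) = (x : ℝ) ^ y := by
    intro y
    rw [Real.rpow_def_of_pos hx0, mul_comm]
  have hεpos : 0 < ε := lt_of_lt_of_le (Real.exp_pos _) hε0
  have hℓ0 : 0 < ℓ := by linarith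
  set z : ℝ := ℓ ^ (240 / δ') with hzdef
  have hz0 : 0 ≤ z := Real.rpow_nonneg hℓ0.le _
  have hre : 1 < (1 + (ε : ℂ)).re := by simp; exact hεpos
  have hSF : ∀ m ∈ B, Squarefree m := fun m hm => (mem_filter.1 (hBS hm)).2.1
  have hc2 : cut a z 2 = 0 := by
    unfold cut
    split_ifs
    · rfl
    · exact haY 2 Nat.prime_two hY
  -- the splitting
  have hsplit : ∀ m : ℤ, ∀ hm : m ≠ 0, PG a (qg m t) (1 + (ε : ℂ)) =
      ∑ p ∈ TT Y z, (a p * (ph (-t) p * (p : ℂ) ^ (-(1 + (ε : ℂ))))) * ((kr m p : ℤ) : ℂ) +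
        LS.PS (cut a z) (kchar m hm) (1 + (ε : ℂ) + (t : ℂ) * I) := by
    intro m hm
    rw [PG_split ha haY hz0 (pm_qg m t) hre, PG_qg hc2 hm]
    congr 1
    apply sum_congr rfl
    intro p hp
    unfold qg
    rw [qc_prime m (mem_filter.1 hp).2]
    ring
  set b : ℕ → ℂ := fun p => a p * (ph (-t) p * (p : ℂ) ^ (-(1 + (ε : ℂ)))) with hb
  set B₁ := B.filter fun m => θ / 2 ≤ ‖∑ p ∈ TT Y z, b p * ((kr m p : ℤ) : ℂ)‖ with hB₁
  set B₂ := B.filter fun m => ¬ θ / 2 ≤ ‖∑ p ∈ TT Y z, b p * ((kr m p : ℤ) : ℂ)‖ with hB₂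
  have hcard : (B.card : ℝ) = B₁.card + B₂.card := by
    rw [← Nat.cast_add, card_filter_add_card_filter_not]
  have hbp : ∀ p : ℕ, p.Prime → ‖b p‖ ≤ M * (1 / (p : ℝ)) := by
    intro p hp
    have hp0 : (0 : ℝ) < p := by exact_mod_cast hp.pos
    simp only [hb]
    rw [norm_mul, norm_mul, norm_ph _ hp.pos, one_mul, norm_natCast_cpow_of_pos hp.pos]
    apply mul_le_mul (ha p hp) _ (by positivity) hM.le
    rw [one_div, ← Real.rpow_neg_one]
    apply Real.rpow_le_rpow_of_exponent_le (by exact_mod_cast hp.one_le)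
    simp
    exact hεpos.le
  -- the first part
  have h1 : (B₁.card : ℝ) ≤ x * (16 * M ^ 2 / (Y * θ ^ 2)) := by
    have h2 := cheb (IX x) (fun m => ‖∑ p ∈ TT Y z, b p * ((kr m p : ℤ) : ℂ)‖)
      (fun _ _ => norm_nonneg _) (half_pos hθ)
    have h3 := mean_sq_int (TT Y z) (fun p hp => by
      unfold TT at hp
      rw [mem_filter, mem_Ioc] at hp
      exact ⟨hp.2, by omega⟩) b x
    have h4 : ∑ p ∈ TT Y z, ‖b p‖ ^ 2 ≤ M ^ 2 / Y := by
      have h5 : ∀ p ∈ TT Y z, ‖b p‖ ^ 2 ≤ M ^ 2 * (1 / (p : ℝ) ^ 2) := by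
        intro p hp
        have := pow_le_pow_left₀ (norm_nonneg _) (hbp p (mem_filter.1 hp).2) 2
        refine this.trans (le_of_eq ?_)
        rw [mul_pow, one_div, one_div, inv_pow]
      refine (sum_le_sum h5).trans ?_
      rw [← mul_sum, div_eq_mul_one_div]
      apply mul_le_mul_of_nonneg_left _ (by positivity)
      refine le_trans ?_ (sum_sq_le (by omega : 1 ≤ Y) ⌊z⌋₊)
      apply sum_le_sum_of_subset_of_nonneg
      · exact filter_subset _ _
      · intro _ _ _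
        positivity
    have h4' : ∑ p ∈ TT Y z, (p : ℝ) * ‖b p‖ ≤ M * z := by
      have h5 : ∀ p ∈ TT Y z, (p : ℝ) * ‖b p‖ ≤ M := by
        intro p hp
        have hp' := (mem_filter.1 hp).2
        have hp0 : (0 : ℝ) < p := by exact_mod_cast hp'.pos
        calc (p : ℝ) * ‖b p‖ ≤ p * (M * (1 / (p : ℝ))) :=
              mul_le_mul_of_nonneg_left (hbp p hp') hp0.le
          _ = M := by field_simp
      refine (sum_le_sum h5).trans ?_
      rw [sum_const, nsmul_eq_mul, mul_comm]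
      apply mul_le_mul_of_nonneg_left _ hM.le
      unfold TT
      have h6 : (((Ioc Y ⌊z⌋₊).filter Nat.Prime).card : ℝ) ≤ (⌊z⌋₊ : ℝ) := by
        have := card_filter_le (Ioc Y ⌊z⌋₊) Nat.Prime
        rw [Nat.card_Ioc] at this
        exact_mod_cast this.trans (Nat.sub_le _ _)
      exact h6.trans (Nat.floor_le hz0)
    have h5 : (B₁.card : ℝ) ≤ (((IX x).filter fun m : ℤ =>
        θ / 2 ≤ ‖∑ p ∈ TT Y z, b p * ((kr m p : ℤ) : ℂ)‖).card : ℝ) := by
      have hsub : B ⊆ IX x := fun m hm => (mem_filter.1 (hBS hm)).1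
      exact_mod_cast card_le_card (filter_subset_filter _ hsub)
    have h7 : M ^ 2 * z ^ 2 ≤ M ^ 2 * (x / Y) := by
      apply mul_le_mul_of_nonneg_left _ (by positivity)
      rw [le_div_iff₀ hY0, mul_comm]
      exact hzx
    have h8 : (∑ p ∈ TT Y z, (p : ℝ) * ‖b p‖) ^ 2 ≤ M ^ 2 * z ^ 2 := by
      rw [← mul_pow]
      exact pow_le_pow_left₀ (sum_nonneg fun _ _ => by positivity) h4' 2
    have h6 : (B₁.card : ℝ) * (θ / 2) ^ 2 ≤ (2 * x + 1) * (M ^ 2 / Y) + M ^ 2 * (x / Y) := by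
      refine le_trans (mul_le_mul_of_nonneg_right h5 (by positivity)) (h2.trans (h3.trans ?_))
      apply add_le_add _ (h8.trans h7)
      exact mul_le_mul_of_nonneg_left h4 (by positivity)
    have h9 : (2 * x + 1) * (M ^ 2 / Y) + M ^ 2 * (x / Y) ≤
        x * (16 * M ^ 2 / (Y * θ ^ 2)) * (θ / 2) ^ 2 := by
      have e1 : x * (16 * M ^ 2 / (Y * θ ^ 2)) * (θ / 2) ^ 2 = 4 * x * (M ^ 2 / Y) := by
        field_simp
        ring
      rw [e1]
      have e2 : M ^ 2 * (x / Y) = x * (M ^ 2 / Y) := by ring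
      rw [e2, ← add_mul]
      apply mul_le_mul_of_nonneg_right _ (by positivity)
      linarith
    exact le_of_mul_le_mul_right (h6.trans h9) (by positivity)
  -- the second part
  have h2 : (B₂.card : ℝ) ≤ (x : ℝ) ^ δ := by
    set e := B₂.equivFin with he
    have hmem : ∀ j : Fin B₂.card, ((e.symm j : B₂) : ℤ) ∈ B₂ := fun j => (e.symm j).2
    have hmB : ∀ j : Fin B₂.card, ((e.symm j : B₂) : ℤ) ∈ B := fun j => (mem_filter.1 (hmem j)).1
    have hsq : ∀ j : Fin B₂.card, Squarefree ((e.symm j : B₂) : ℤ) := fun j => hSF _ (hmB j)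
    have hne : ∀ j : Fin B₂.card, ((e.symm j : B₂) : ℤ) ≠ 0 := fun j => (hsq j).ne_zero
    have hsp : Spaced (fun j : Fin B₂.card => 4 * ((e.symm j : B₂) : ℤ).natAbs)
        (fun j => kchar ((e.symm j : B₂) : ℤ) (hne j)) (fun _ => t) := by
      refine ⟨fun j => ?_, fun j k hjk hag => ?_⟩
      · have := Int.natAbs_pos.2 (hne j)
        positivity
      · exfalso
        have hne' : ((e.symm j : B₂) : ℤ) ≠ ((e.symm k : B₂) : ℤ) := by
          intro h0
          exact hjk (e.symm.injective (Subtype.ext h0))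
        exact not_agree (hsq j) (hsq k) hne' hag
    have h3 := hshort B₂.card (fun j : Fin B₂.card => 4 * ((e.symm j : B₂) : ℤ).natAbs)
      (fun j => kchar ((e.symm j : B₂) : ℤ) (hne j)) (fun _ => t) hsp
      (fun j => by
        rw [hℓ, hexp]
        have h4 := mem_IX.1 (mem_filter.1 (hBS (hmB j))).1
        have h5 : ((e.symm j : B₂) : ℤ).natAbs ≤ x := by omega
        have h6 : ((4 * ((e.symm j : B₂) : ℤ).natAbs : ℕ) : ℝ) ≤ 4 * x := by
          exact_mod_cast Nat.mul_le_mul_left 4 h5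
        calc _ ≤ 4 * (x : ℝ) := h6
          _ ≤ x * x := mul_le_mul_of_nonneg_right hx4' hx0.le
          _ = (x : ℝ) ^ (2 : ℝ) := by
              rw [Real.rpow_two, sq]
          _ ≤ _ := Real.rpow_le_rpow_of_exponent_le hx1 (by rw [hA']; linarith))
      (fun _ => by
        rw [hℓ, hexp]
        refine ht.trans (Real.rpow_le_rpow_of_exponent_le hx1 (by rw [hA']; linarith)))
      (fun _ => ε)
      (fun _ => by
        have h4 : δ' * ℓ / 8 = δ / 8 * Real.log x := by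
          rw [hδ', hℓ]
          field_simp
        rw [h4, hexp]
        exact hε0) (fun _ => hε1) (cut a z) (norm_cut ha z)
      (fun p _ hpz => by
        unfold cut
        rw [if_pos hpz])
      (fun j => by
        have h4 := mem_filter.1 (hmem j)
        have h5 := hB _ h4.1
        rw [hsplit _ (hne j)] at h5
        have h6 := norm_add_le (∑ p ∈ TT Y z, b p * ((kr ((e.symm j : B₂) : ℤ) p : ℤ) : ℂ))
          (LS.PS (cut a z) (kchar ((e.symm j : B₂) : ℤ) (hne j)) (1 + (ε : ℂ) + (t : ℂ) * I))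
        have h7 : 1 / (4 * ℓ) ≤ θ / 2 := by
          rw [div_le_iff₀ (by positivity)] at hℓθ ⊢
          linarith
        have h8 := h4.2
        rw [not_le] at h8
        linarith)
    have h4 : δ' * ℓ = δ * Real.log x := by
      rw [hδ', hℓ]
      field_simp
    rw [h4, hexp] at h3
    exact h3
  rw [hcard]
  linarith

section
variable {Ω : Type} [MeasurableSpace Ω] {μ : Measure Ω} [IsProbabilityMeasure μ] {X : ℕ → Ω → ℤ}

/-- the random function with a vertical shift -/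
noncomputable def qX (X : ℕ → Ω → ℤ) (t : ℝ) (ω : Ω) (n : ℕ) : ℂ := ((X n ω : ℤ) : ℂ) * ph (-t) n

lemma Rad.pow (h : Rad μ X) {p : ℕ} (hp : p.Prime) (k : ℕ) (ω : Ω) : X (p ^ k) ω = X p ω ^ k := by
  induction k with
  | zero => rw [pow_zero, pow_zero, h.map_one]
  | succ k ih => rw [pow_succ, h.map_mul _ _ (pow_pos hp.pos k) hp.pos, ih, pow_succ]

lemma Rad.norm_le (h : Rad μ X) {p : ℕ} (hp : p.Prime) (ω : Ω) : ‖((X p ω : ℤ) : ℂ)‖ ≤ 1 := by
  rcases h.vals ⟨p, hp⟩ ω with h1 | h1 | h1 <;>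
  · change X p ω = _ at h1
    rw [h1]
    simp

lemma pm_qX (h : Rad μ X) (t : ℝ) (ω : Ω) : PM (qX X t ω) := by
  constructor
  · intro p hp k
    unfold qX
    rw [h.pow hp, mul_pow]
    push_cast
    congr 1
    induction k with
    | zero => simp [ph]
    | succ k ih => rw [pow_succ, ph_mul, ih, pow_succ]
  · intro p hp
    unfold qX
    rw [norm_mul, norm_ph _ hp.pos, mul_one]
    exact h.norm_le hp ω

lemma Rad.measurable_real (h : Rad μ X) {p : ℕ} (hp : p.Prime) :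
    Measurable fun ω => ((X p ω : ℤ) : ℝ) :=
  (measurable_of_countable (fun s : ℤ => (s : ℝ))).comp (h.meas ⟨p, hp⟩)

lemma Rad.mean (h : Rad μ X) {p : ℕ} (hp : p.Prime) : ∫ ω, ((X p ω : ℤ) : ℝ) ∂μ = 0 := by
  have hm : ∀ s : ℤ, MeasurableSet {ω | X p ω = s} := fun s =>
    h.meas ⟨p, hp⟩ (measurableSet_singleton s)
  have h1 : ∀ ω, ((X p ω : ℤ) : ℝ) = Set.indicator {ω | X p ω = 1} (fun _ => (1 : ℝ)) ω -
      Set.indicator {ω | X p ω = -1} (fun _ => (1 : ℝ)) ω := by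
    intro ω
    rcases h.vals ⟨p, hp⟩ ω with h1 | h1 | h1 <;> change X p ω = _ at h1 <;>
      simp [Set.indicator, h1]
  simp_rw [h1]
  rw [integral_sub ((integrable_const _).indicator (hm 1)) ((integrable_const _).indicator (hm (-1))),
    integral_indicator (hm 1), integral_indicator (hm (-1)), setIntegral_const, setIntegral_const]
  have h2 := h.law_one ⟨p, hp⟩
  have h3 := h.law_neg ⟨p, hp⟩
  change μ.real {ω | X p ω = 1} = _ at h2
  change μ.real {ω | X p ω = -1} = _ at h3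
  rw [h2, h3]
  simp

lemma Rad.orth (h : Rad μ X) {p r : ℕ} (hp : p.Prime) (hr : r.Prime) (hpr : p ≠ r) :
    ∫ ω, ((X p ω : ℤ) : ℝ) * ((X r ω : ℤ) : ℝ) ∂μ = 0 := by
  have hne : (⟨p, hp⟩ : Nat.Primes) ≠ ⟨r, hr⟩ := fun h0 => hpr (congrArg Subtype.val h0)
  have h5 := (h.indep.indepFun hne).integral_fun_comp_mul_comp
    (f := fun s : ℤ => (s : ℝ)) (g := fun s : ℤ => (s : ℝ))
    (h.meas ⟨p, hp⟩).aemeasurable (h.meas ⟨r, hr⟩).aemeasurable
    (measurable_of_countable _).aestronglyMeasurable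
    (measurable_of_countable _).aestronglyMeasurable
  rw [h5]
  have := h.mean hp
  change (∫ ω, ((X p ω : ℤ) : ℝ) ∂μ) * _ = 0
  rw [this, zero_mul]

/-- the mean square of a finite sum -/
lemma mean_sq_rad (h : Rad μ X) (T : Finset ℕ) (hT : ∀ p ∈ T, p.Prime) (b : ℕ → ℂ) :
    ∫ ω, ‖∑ p ∈ T, b p * ((X p ω : ℤ) : ℂ)‖ ^ 2 ∂μ ≤ ∑ p ∈ T, ‖b p‖ ^ 2 := by
  classical
  have h2 : ((∫ ω, ‖∑ p ∈ T, b p * ((X p ω : ℤ) : ℂ)‖ ^ 2 ∂μ : ℝ) : ℂ) =
      ∑ p ∈ T, ∑ r ∈ T, conj (b p) * b r * ((∫ ω, ((X p ω : ℤ) : ℝ) * ((X r ω : ℤ) : ℝ) ∂μ : ℝ) : ℂ) := by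
    rw [← integral_complex_ofReal]
    have h3 : ∀ ω, ((‖∑ p ∈ T, b p * ((X p ω : ℤ) : ℂ)‖ ^ 2 : ℝ) : ℂ) =
        ∑ p ∈ T, ∑ r ∈ T, conj (b p) * b r * ((((X p ω : ℤ) : ℝ) * ((X r ω : ℤ) : ℝ) : ℝ) : ℂ) := by
      intro ω
      push_cast
      rw [← conj_mul', map_sum, sum_mul_sum]
      apply sum_congr rfl
      intro p _
      apply sum_congr rfl
      intro r _
      rw [map_mul, map_intCast]
      ring
    simp_rw [h3]
    have hint : ∀ p ∈ T, ∀ r ∈ T, Integrable (fun ω => conj (b p) * b r *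
        ((((X p ω : ℤ) : ℝ) * ((X r ω : ℤ) : ℝ) : ℝ) : ℂ)) μ := by
      intro p hp r hr
      apply Integrable.const_mul
      refine Integrable.of_bound ?_ 1 ?_
      · exact (Complex.measurable_ofReal.comp ((h.measurable_real (hT p hp)).mul
          (h.measurable_real (hT r hr)))).aestronglyMeasurable
      · exact Eventually.of_forall fun ω => by
          rw [Complex.norm_real, norm_mul]
          have e1 := h.norm_le (hT p hp) ω
          have e2 := h.norm_le (hT r hr) ω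
          rw [Complex.norm_intCast] at e1 e2
          exact mul_le_one₀ e1 (norm_nonneg _) e2
    rw [integral_finsetSum _ fun p hp => integrable_finsetSum _ fun r hr => hint p hp r hr]
    apply sum_congr rfl
    intro p hp
    rw [integral_finsetSum _ fun r hr => hint p hp r hr]
    apply sum_congr rfl
    intro r hr
    rw [integral_const_mul, integral_complex_ofReal]
  have h4 : ((∫ ω, ‖∑ p ∈ T, b p * ((X p ω : ℤ) : ℂ)‖ ^ 2 ∂μ : ℝ) : ℂ) =
      ∑ p ∈ T, (((‖b p‖ ^ 2 * ∫ ω, ((X p ω : ℤ) : ℝ) * ((X p ω : ℤ) : ℝ) ∂μ : ℝ)) : ℂ) := by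
    rw [h2]
    apply sum_congr rfl
    intro p hp
    rw [sum_eq_single p]
    · rw [conj_mul']
      push_cast
      rfl
    · intro r hr hne
      rw [h.orth (hT p hp) (hT r hr) (fun h0 => hne h0.symm)]
      simp
    · intro h0
      exact absurd hp h0
  have h5 : ∫ ω, ‖∑ p ∈ T, b p * ((X p ω : ℤ) : ℂ)‖ ^ 2 ∂μ =
      ∑ p ∈ T, ‖b p‖ ^ 2 * ∫ ω, ((X p ω : ℤ) : ℝ) * ((X p ω : ℤ) : ℝ) ∂μ := by
    exact_mod_cast h4
  rw [h5]
  apply sum_le_sum
  intro p hp
  have h6 : ∫ ω, ((X p ω : ℤ) : ℝ) * ((X p ω : ℤ) : ℝ) ∂μ ≤ 1 := by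
    have h7 := norm_integral_le_of_norm_le_const (μ := μ)
      (f := fun ω => ((X p ω : ℤ) : ℝ) * ((X p ω : ℤ) : ℝ)) (C := 1)
      (Eventually.of_forall fun ω => by
        rw [norm_mul]
        have e1 := h.norm_le (hT p hp) ω
        rw [Complex.norm_intCast] at e1
        exact mul_le_one₀ e1 (norm_nonneg _) e1)
    have h8 : μ.real Set.univ = 1 := by simp
    rw [h8, one_mul] at h7
    exact (le_abs_self _).trans h7
  calc _ ≤ ‖b p‖ ^ 2 * 1 := mul_le_mul_of_nonneg_left h6 (by positivity)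
    _ = _ := mul_one _

/-- **The large primes, for the random function.** -/
theorem rad_tail (h : Rad μ X) {M θ : ℝ} (hM : 0 < M) (hθ : 0 < θ) {Y : ℕ} (hY : 1 ≤ Y) (t : ℝ)
    {ε : ℝ} (hε : 0 < ε) (a : ℕ → ℂ) (ha : ∀ p : ℕ, p.Prime → ‖a p‖ ≤ M)
    (haY : ∀ p : ℕ, p.Prime → p ≤ Y → a p = 0) :
    μ.real {ω | θ ≤ ‖PG a (qX X t ω) (1 + (ε : ℂ))‖} ≤ 4 * M ^ 2 / (Y * θ ^ 2) := by
  obtain ⟨Z, hZ0, hZ⟩ := tail_small (M := M) hε (half_pos hθ)
  have hre : 1 < (1 + (ε : ℂ)).re := by simp; exact hε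
  set b : ℕ → ℂ := fun p => a p * (ph (-t) p * (p : ℂ) ^ (-(1 + (ε : ℂ)))) with hb
  set S : Ω → ℂ := fun ω => ∑ p ∈ TT Y Z, b p * ((X p ω : ℤ) : ℂ) with hS
  have hprime : ∀ p ∈ TT Y Z, p.Prime := fun p hp => (mem_filter.1 hp).2
  have hmeas : Measurable S := by
    apply Finset.measurable_sum
    intro p hp
    have h1 := (Complex.measurable_ofReal.comp (h.measurable_real (hprime p hp))).const_mul (b p)
    simpa using h1
  have hsub : {ω | θ ≤ ‖PG a (qX X t ω) (1 + (ε : ℂ))‖} ⊆ {ω | (θ / 2) ^ 2 ≤ ‖S ω‖ ^ 2} := by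
    intro ω hω
    change θ ≤ ‖PG a (qX X t ω) (1 + (ε : ℂ))‖ at hω
    change (θ / 2) ^ 2 ≤ ‖S ω‖ ^ 2
    have h1 : PG a (qX X t ω) (1 + (ε : ℂ)) = S ω + PG (cut a Z) (qX X t ω) (1 + (ε : ℂ)) := by
      rw [PG_split ha haY hZ0 (pm_qX h t ω) hre]
      congr 1
      apply sum_congr rfl
      intro p _
      simp only [hb]
      unfold qX
      ring
    have h2 := hZ a (qX X t ω) ha (pm_qX h t ω)
    have h3 := norm_add_le (S ω) (PG (cut a Z) (qX X t ω) (1 + (ε : ℂ)))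
    rw [← h1] at h3
    exact pow_le_pow_left₀ (by positivity) (by linarith) 2
  have hint : Integrable (fun ω => ‖S ω‖ ^ 2) μ := by
    refine Integrable.of_bound ?_ ((∑ p ∈ TT Y Z, ‖b p‖) ^ 2) ?_
    · exact (hmeas.norm.pow_const 2).aestronglyMeasurable
    · exact Eventually.of_forall fun ω => by
        rw [Real.norm_of_nonneg (by positivity)]
        apply pow_le_pow_left₀ (norm_nonneg _)
        apply norm_sum_le_of_le
        intro p hp
        rw [norm_mul]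
        exact mul_le_of_le_one_right (norm_nonneg _) (h.norm_le (hprime p hp) ω)
  have h1 := mul_meas_ge_le_integral_of_nonneg (μ := μ) (f := fun ω => ‖S ω‖ ^ 2)
    (Eventually.of_forall fun ω => by positivity) hint ((θ / 2) ^ 2)
  have h2 := mean_sq_rad h (TT Y Z) hprime b
  have h3 : ∑ p ∈ TT Y Z, ‖b p‖ ^ 2 ≤ M ^ 2 / Y := by
    have h5 : ∀ p ∈ TT Y Z, ‖b p‖ ^ 2 ≤ M ^ 2 * (1 / (p : ℝ) ^ 2) := by
      intro p hp
      have hp' := hprime p hp
      have hp0 : (0 : ℝ) < p := by exact_mod_cast hp'.pos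
      simp only [hb]
      rw [norm_mul, norm_mul, norm_ph _ hp'.pos, one_mul, norm_natCast_cpow_of_pos hp'.pos, mul_pow]
      apply mul_le_mul (pow_le_pow_left₀ (norm_nonneg _) (ha p hp') 2) _ (by positivity)
        (by positivity)
      rw [one_div, ← inv_pow]
      apply pow_le_pow_left₀ (by positivity)
      rw [← Real.rpow_neg_one]
      apply Real.rpow_le_rpow_of_exponent_le (by exact_mod_cast hp'.one_le)
      simp
      exact hε.le
    refine (sum_le_sum h5).trans ?_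
    rw [← mul_sum, div_eq_mul_one_div]
    apply mul_le_mul_of_nonneg_left _ (by positivity)
    refine le_trans ?_ (sum_sq_le hY ⌊Z⌋₊)
    apply sum_le_sum_of_subset_of_nonneg
    · exact filter_subset _ _
    · intro _ _ _
      positivity
  have h4 : μ.real {ω | θ ≤ ‖PG a (qX X t ω) (1 + (ε : ℂ))‖} ≤
      μ.real {ω | (θ / 2) ^ 2 ≤ ‖S ω‖ ^ 2} := measureReal_mono hsub
  have hY0 : (0 : ℝ) < Y := by exact_mod_cast hY
  have h5 : (θ / 2) ^ 2 * μ.real {ω | θ ≤ ‖PG a (qX X t ω) (1 + (ε : ℂ))‖} ≤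
      (θ / 2) ^ 2 * (4 * M ^ 2 / (Y * θ ^ 2)) := by
    have h6 : (θ / 2) ^ 2 * (4 * M ^ 2 / (Y * θ ^ 2)) = M ^ 2 / Y := by
      field_simp
      ring
    rw [h6]
    refine (mul_le_mul_of_nonneg_left h4 (by positivity)).trans (h1.trans (h2.trans h3))
  exact le_of_mul_le_mul_left h5 (by positivity)

end

end Pool.Agent.H439.QD
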