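import Pool.Agent.H439.QD.Main
import Pool.Agent.H439.LL.Model

/-!
# A model of the random function
-/

set_option autoImplicit false

namespace Pool.Agent.H439.QD

open MeasureTheory ProbabilityTheory Complex Pool.Agent.H439.LL

lemma rho_pos (p : Nat.Primes) : 0 < rho p := by
  unfold rho
  have : (0 : ℝ) < (p : ℕ) := by exact_mod_cast p.2.pos
  split_ifs
  · norm_num
  · positivity

lemma rho_lt (p : Nat.Primes) : rho p < 1 := by
  unfold rho
  have : (0 : ℝ) < (p : ℕ) := by exact_mod_cast p.2.pos
  split_ifs
  · norm_num
  · rw [div_lt_one (by positivity)]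
    linarith

/-- the value at a prime -/
noncomputable def vq (p : Nat.Primes) (x : unitInterval) : ℤ :=
  if (x : ℝ) < rho p / 2 then 1 else if (x : ℝ) < rho p then -1 else 0

lemma measurable_vq (p : Nat.Primes) : Measurable (vq p) := by
  unfold vq
  apply Measurable.ite (measurableSet_lt measurable_subtype_coe measurable_const) measurable_const
  exact Measurable.ite (measurableSet_lt measurable_subtype_coe measurable_const) measurable_const
    measurable_const

/-- the value at a natural number which is a prime -/
noncomputable def vqn (ω : Nat.Primes → unitInterval) (p : ℕ) : ℤ :=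
  if h : p.Prime then vq ⟨p, h⟩ (ω ⟨p, h⟩) else 1

/-- the completely multiplicative function -/
noncomputable def rqf (ω : Nat.Primes → unitInterval) (n : ℕ) : ℤ :=
  n.factorization.prod fun p k => vqn ω p ^ k

lemma rqf_prime' (ω : Nat.Primes → unitInterval) {p : ℕ} (hp : p.Prime) :
    rqf ω p = vqn ω p := by
  unfold rqf
  rw [hp.factorization, Finsupp.prod_single_index (h := fun p k => vqn ω p ^ k) (pow_zero _),
    pow_one]

lemma rqf_prime (ω : Nat.Primes → unitInterval) (p : Nat.Primes) : rqf ω p = vq p (ω p) := by
  rw [rqf_prime' ω p.2]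
  unfold vqn
  rw [dif_pos p.2]
  rfl

lemma law_coord (p : Nat.Primes) (A : Set ℝ) (hA : MeasurableSet A) :
    pmu.real {ω | (ω p : ℝ) ∈ A} = (volume.restrict (Set.Icc (0 : ℝ) 1)).real A := by
  have h1 := (measurePreserving_eval_infinitePi
    (fun _ : Nat.Primes => (volume : Measure unitInterval)) p)
  have h2 := unitInterval.measurePreserving_coe.comp h1
  have h3 := h2.measure_preimage hA.nullMeasurableSet
  unfold Measure.real
  rw [← h3]
  rfl

theorem model_q : Rad pmu (fun n ω => rqf ω n) := by
  constructor
  · intro m n hm hn ω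
    unfold rqf
    rw [Nat.factorization_mul hm.ne' hn.ne', Finsupp.prod_add_index' (fun _ => pow_zero _)
      (fun _ _ _ => pow_add _ _ _)]
  · intro ω
    unfold rqf
    simp
  · intro p
    simp_rw [rqf_prime]
    exact (measurable_vq p).comp (measurable_pi_apply p)
  · intro p ω
    simp only [rqf_prime]
    unfold vq
    split_ifs <;> simp
  · intro p
    have h0 := rho_pos p
    have h1 := rho_lt p
    have e : {ω : Nat.Primes → unitInterval | rqf ω p = 1} = {ω | (ω p : ℝ) ∈ Set.Iio (rho p / 2)} := by
      ext ω
      simp only [Set.mem_ofPred_eq, rqf_prime, Set.mem_Iio]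
      unfold vq
      split_ifs with h2 h3 <;> simp [h2]
    rw [e, law_coord p _ measurableSet_Iio]
    unfold Measure.real
    rw [Measure.restrict_apply measurableSet_Iio]
    have e2 : Set.Iio (rho p / 2) ∩ Set.Icc (0 : ℝ) 1 = Set.Ico 0 (rho p / 2) := by
      ext x
      simp only [Set.mem_inter_iff, Set.mem_Iio, Set.mem_Icc, Set.mem_Ico]
      constructor
      · rintro ⟨a, b, c⟩; exact ⟨b, a⟩
      · rintro ⟨a, b⟩; exact ⟨b, a, by linarith⟩
    rw [e2, Real.volume_Ico, ENNReal.toReal_ofReal (by linarith)]
    ring
  · intro p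
    have h0 := rho_pos p
    have h1 := rho_lt p
    have e : {ω : Nat.Primes → unitInterval | rqf ω p = -1} =
        {ω | (ω p : ℝ) ∈ Set.Ico (rho p / 2) (rho p)} := by
      ext ω
      simp only [Set.mem_ofPred_eq, rqf_prime, Set.mem_Ico]
      unfold vq
      split_ifs with h2 h3
      · constructor
        · intro h; norm_num at h
        · rintro ⟨h, -⟩; linarith
      · simp only [true_iff]
        exact ⟨not_lt.1 h2, h3⟩
      · constructor
        · intro h; norm_num at h
        · rintro ⟨-, h⟩; exact absurd h h3
    rw [e, law_coord p _ measurableSet_Ico]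
    unfold Measure.real
    rw [Measure.restrict_apply measurableSet_Ico]
    have e2 : Set.Ico (rho p / 2) (rho p) ∩ Set.Icc (0 : ℝ) 1 = Set.Ico (rho p / 2) (rho p) := by
      ext x
      simp only [Set.mem_inter_iff, Set.mem_Icc, Set.mem_Ico]
      constructor
      · rintro ⟨a, -⟩; exact a
      · rintro ⟨a, b⟩; exact ⟨⟨a, b⟩, by linarith, by linarith⟩
    rw [e2, Real.volume_Ico, ENNReal.toReal_ofReal (by linarith)]
    ring
  · have h1 := iIndepFun_infinitePi (P := fun _ : Nat.Primes => (volume : Measure unitInterval))
      (X := fun p x => vq p x) measurable_vq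
    refine h1.congr fun p => ?_
    filter_upwards with ω
    exact (rqf_prime ω p).symm

end Pool.Agent.H439.QD
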