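import Pool.Agent.H439.LL.Main
import Pool.Graph.R_pool_sql_team_seeded_620a6dc7.A856.QF.Chr

/-!
# The characters of the quadratic fields
-/

set_option autoImplicit false

namespace Pool.Agent.H439.QD

open Finset Complex Pool.Agent.H439.LS Pool.Agent.H439.SP Pool.Agent.H439.LL Pool.Agent.A856.QF

/-- the Kronecker symbol of the field `ℚ(√m)` at the prime `p`, for `m` squarefree -/
def kr (m : ℤ) (p : ℕ) : ℤ :=
  if p = 2 then (if m % 8 = 1 then 1 else if m % 8 = 5 then -1 else 0) else jacobiSym m p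

/-- the completely multiplicative function with the values `kr m p` -/
noncomputable def qc (m : ℤ) (n : ℕ) : ℂ := n.factorization.prod fun p k => ((kr m p : ℤ) : ℂ) ^ k

lemma kr_cases (m : ℤ) (p : ℕ) : kr m p = 0 ∨ kr m p = 1 ∨ kr m p = -1 := by
  unfold kr
  split_ifs
  · tauto
  · tauto
  · tauto
  · exact jacobiSym.trichotomy m p

lemma norm_kr (m : ℤ) (p : ℕ) : ‖((kr m p : ℤ) : ℂ)‖ ≤ 1 := by
  rcases kr_cases m p with h | h | h <;> rw [h] <;> simp

lemma qc_prime (m : ℤ) {p : ℕ} (hp : p.Prime) : qc m p = ((kr m p : ℤ) : ℂ) := by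
  unfold qc
  rw [hp.factorization, Finsupp.prod_single_index (h := fun p k => ((kr m p : ℤ) : ℂ) ^ k)
    (pow_zero _), pow_one]

lemma qc_pow (m : ℤ) {p : ℕ} (hp : p.Prime) (k : ℕ) : qc m (p ^ k) = qc m p ^ k := by
  rw [qc_prime m hp]
  unfold qc
  rw [hp.factorization_pow, Finsupp.prod_single_index (h := fun p k => ((kr m p : ℤ) : ℂ) ^ k)
    (pow_zero _)]

/-- with a vertical shift -/
noncomputable def qg (m : ℤ) (t : ℝ) (n : ℕ) : ℂ := qc m n * ph (-t) n

lemma pm_qg (m : ℤ) (t : ℝ) : PM (qg m t) := by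
  constructor
  · intro p hp k
    unfold qg
    rw [mul_pow, qc_pow m hp]
    congr 1
    induction k with
    | zero => simp [ph]
    | succ k ih => rw [pow_succ, ph_mul, ih, pow_succ]
  · intro p hp
    unfold qg
    rw [norm_mul, norm_ph _ hp.pos, mul_one, qc_prime m hp]
    exact norm_kr m p

lemma jacobi_eq_zero {m : ℤ} {p : ℕ} (hp : p.Prime) (h : p ∣ m.natAbs) : jacobiSym m p = 0 := by
  have : NeZero p := ⟨hp.ne_zero⟩
  rw [jacobiSym.eq_zero_iff_not_coprime]
  intro h2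
  have h1 : p ∣ m.gcd p := Int.dvd_gcd (Int.natCast_dvd.2 h) (dvd_refl _) |> fun h => by
    exact_mod_cast h
  rw [h2] at h1
  exact hp.one_lt.ne' (Nat.dvd_one.1 h1)

/-- the Dirichlet character at the odd primes -/
lemma kchar_prime {m : ℤ} (hm : m ≠ 0) {p : ℕ} (hp : p.Prime) (hp2 : p ≠ 2) :
    kchar m hm (p : ZMod (4 * m.natAbs)) = ((kr m p : ℤ) : ℂ) := by
  have hpo : Odd p := hp.odd_of_ne_two hp2
  have hcop4 : p.Coprime 4 := by
    have : p.Coprime 2 := Nat.coprime_two_right.2 hpo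
    have h4 : (4 : ℕ) = 2 * 2 := rfl
    rw [h4]
    exact Nat.Coprime.mul_right this this
  unfold kr
  rw [if_neg hp2]
  by_cases h : p ∣ m.natAbs
  · rw [jacobi_eq_zero hp h, Int.cast_zero]
    apply MulChar.map_nonunit
    rw [ZMod.isUnit_iff_coprime]
    intro hc
    have := Nat.Coprime.coprime_mul_left_right hc
    rw [hp.coprime_iff_not_dvd] at this
    exact this h
  · exact kchar_apply m hm p (Nat.Coprime.mul_right hcop4 ((Nat.Prime.coprime_iff_not_dvd hp).2 h))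

/-- a number with prescribed residues -/
lemma exists_crt {a b : ℕ} (hab : a.Coprime b) (u v : ℕ) : ∃ n : ℕ, n ≡ u [MOD a] ∧ n ≡ v [MOD b] :=
  ⟨_, (Nat.chineseRemainder hab u v).2⟩

/-- first case: an odd prime divides one and not the other -/
lemma exists_of_prime {m m' : ℤ} (hm : Squarefree m) (hm' : m' ≠ 0) {p : ℕ} (hp : p.Prime)
    (hp2 : p ≠ 2) (h1 : p ∣ m.natAbs) (h2 : ¬ p ∣ m'.natAbs) :
    ∃ n : ℕ, n.Coprime (4 * m.natAbs * (4 * m'.natAbs)) ∧ jacobiSym m n = -1 ∧ jacobiSym m' n = 1 := by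
  have hm0 : m ≠ 0 := hm.ne_zero
  have hpo : Odd p := hp.odd_of_ne_two hp2
  have hcop4 : p.Coprime 4 := by
    have : p.Coprime 2 := Nat.coprime_two_right.2 hpo
    have h4 : (4 : ℕ) = 2 * 2 := rfl
    rw [h4]
    exact Nat.Coprime.mul_right this this
  obtain ⟨r, hr⟩ := h1
  have hsq : Squarefree m.natAbs := Int.squarefree_natAbs.2 hm
  have hr0 : r ≠ 0 := by
    rintro rfl
    rw [mul_zero] at hr
    omega
  have hpr : ¬ p ∣ r := by
    intro h
    have h2 : p * p ∣ m.natAbs := by rw [hr]; exact Nat.mul_dvd_mul_left p h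
    exact hp.one_lt.ne' (Nat.isUnit_iff.mp (hsq p h2))
  set k : ℕ := 4 * r * (4 * m'.natAbs) with hk
  have hk0 : 0 < k := by
    have : 0 < m'.natAbs := Int.natAbs_pos.2 hm'
    positivity
  have hpk : p.Coprime k := by
    rw [hk]
    exact Nat.Coprime.mul_right (Nat.Coprime.mul_right hcop4 ((Nat.Prime.coprime_iff_not_dvd hp).2 hpr))
      (Nat.Coprime.mul_right hcop4 ((Nat.Prime.coprime_iff_not_dvd hp).2 h2))
  have hFact := Fact.mk hp
  obtain ⟨c, hc⟩ : ∃ c : ZMod p, quadraticChar (ZMod p) c = -1 := by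
    apply quadraticChar_exists_neg_one
    rw [ZMod.ringChar_zmod_n]
    exact hp2
  obtain ⟨n, hn1, hn2⟩ := exists_crt hpk c.val 1
  have hmod : ∀ d : ℕ, d ∣ k → n ≡ 1 [MOD d] := fun d hd => hn2.of_dvd hd
  have hn4 : n % 4 = 1 := hmod 4 ⟨r * (4 * m'.natAbs), by rw [hk]; ring⟩
  have hno : Odd n := by
    rw [Nat.odd_iff]
    omega
  have : NeZero p := ⟨hp.ne_zero⟩
  have hJp : jacobiSym (n : ℤ) p = -1 := by
    rw [← jacobiSym.legendreSym.to_jacobiSym, legendreSym]
    push_cast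
    have : (n : ZMod p) = c := by
      have h3 := (ZMod.natCast_eq_natCast_iff n c.val p).mpr hn1
      rw [h3, ZMod.natCast_zmod_val]
    rw [this]
    exact hc
  have hnp : n.Coprime p := by
    rw [Nat.coprime_comm, Nat.Prime.coprime_iff_not_dvd hp]
    intro h
    rw [jacobi_eq_zero hp (by simpa using h)] at hJp
    norm_num at hJp
  have hcopd : ∀ d : ℕ, d ∣ k → n.Coprime d := by
    intro d hd
    have h3 := hmod d hd
    rw [Nat.Coprime, h3.gcd_eq, Nat.gcd_one_left]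
  have hone : ∀ s : ℤ, 4 * s.natAbs ∣ k → jacobiSym s n = 1 := by
    intro s hs
    have h3 := hmod _ hs
    have h5 : 0 < 4 * s.natAbs := Nat.pos_of_dvd_of_pos hs hk0
    have h4 : n % (4 * s.natAbs) = 1 := by
      have h6 : n % (4 * s.natAbs) = 1 % (4 * s.natAbs) := h3
      rw [h6, Nat.mod_eq_of_lt (by omega)]
    rw [jacobiSym.mod_right s hno, h4, jacobiSym.one_right]
  refine ⟨n, ?_, ?_, hone m' ⟨4 * r, by rw [hk]; ring⟩⟩
  · rw [hr]
    have h3 : 4 * (p * r) * (4 * m'.natAbs) = p * k := by rw [hk]; ring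
    rw [h3]
    exact Nat.Coprime.mul_right hnp (hcopd k dvd_rfl)
  · obtain ⟨s, hs, hs'⟩ : ∃ s : ℤ, s.natAbs = r ∧ m = (p : ℤ) * s := by
      rcases Int.natAbs_eq m with h | h
      · refine ⟨r, by simp, ?_⟩
        rw [h, hr]
        push_cast
        ring
      · refine ⟨-r, by simp, ?_⟩
        rw [h, hr]
        push_cast
        ring
    rw [hs', jacobiSym.mul_left, hone s ⟨4 * m'.natAbs, by rw [hs, hk]⟩,
      ← jacobiSym.quadratic_reciprocity_one_mod_four hn4 hpo, hJp]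
    norm_num

/-- the unit part and the odd part of a squarefree integer -/
lemma exists_parts {m : ℤ} (hm : Squarefree m) : ∃ (u : ℤ) (o : ℕ), (u = 1 ∨ u = -1 ∨ u = 2 ∨ u = -2) ∧
    Odd o ∧ Squarefree o ∧ m = u * o := by
  have hsq : Squarefree m.natAbs := Int.squarefree_natAbs.2 hm
  obtain ⟨k, o, ho, hk⟩ := Nat.exists_eq_two_pow_mul_odd (Int.natAbs_ne_zero.2 hm.ne_zero)
  have hso : Squarefree o := hsq.squarefree_of_dvd ⟨2 ^ k, by rw [hk]; ring⟩
  have hk1 : k ≤ 1 := by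
    by_contra hcon
    have h2 : 2 * 2 ∣ m.natAbs := by
      rw [hk]
      have : (2 : ℕ) ^ 2 ∣ 2 ^ k := pow_dvd_pow 2 (by omega)
      exact (dvd_trans (by norm_num) this).mul_right o
    have := Nat.isUnit_iff.mp (hsq 2 h2)
    omega
  have hk01 : k = 0 ∨ k = 1 := by omega
  rcases Int.natAbs_eq m with h | h <;> rcases hk01 with rfl | rfl
  · refine ⟨1, o, by tauto, ho, hso, ?_⟩
    rw [h, hk]; simp
  · refine ⟨2, o, by tauto, ho, hso, ?_⟩
    rw [h, hk]; simp
  · refine ⟨-1, o, by tauto, ho, hso, ?_⟩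
    rw [h, hk]; simp
  · refine ⟨-2, o, by tauto, ho, hso, ?_⟩
    rw [h, hk]; simp

lemma natAbs_parts {u : ℤ} {o : ℕ} (hu : u = 1 ∨ u = -1 ∨ u = 2 ∨ u = -2) :
    (u * o).natAbs = o ∨ (u * o).natAbs = 2 * o := by
  rcases hu with rfl | rfl | rfl | rfl <;> simp [Int.natAbs_mul]

lemma at_three {n : ℕ} (h : n % 8 = 3) : jacobiSym (-1) n = -1 ∧ jacobiSym 2 n = -1 ∧
    jacobiSym (-2) n = 1 := by
  have hn : Odd n := by rw [Nat.odd_iff]; omega
  refine ⟨?_, ?_, ?_⟩
  · rw [jacobiSym.at_neg_one hn, ZMod.χ₄_nat_three_mod_four (by omega)]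
  · rw [jacobiSym.at_two hn, ZMod.χ₈_nat_mod_eight, h]; rfl
  · rw [jacobiSym.at_neg_two hn]
    have : ((n : ℕ) : ZMod 8) = 3 := by
      have := (ZMod.natCast_eq_natCast_iff' n 3 8).2 (by omega)
      simpa using this
    rw [this]; rfl

lemma at_five {n : ℕ} (h : n % 8 = 5) : jacobiSym (-1) n = 1 ∧ jacobiSym 2 n = -1 ∧
    jacobiSym (-2) n = -1 := by
  have hn : Odd n := by rw [Nat.odd_iff]; omega
  refine ⟨?_, ?_, ?_⟩
  · rw [jacobiSym.at_neg_one hn, ZMod.χ₄_nat_one_mod_four (by omega)]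
  · rw [jacobiSym.at_two hn, ZMod.χ₈_nat_mod_eight, h]; rfl
  · rw [jacobiSym.at_neg_two hn]
    have : ((n : ℕ) : ZMod 8) = 5 := by
      have := (ZMod.natCast_eq_natCast_iff' n 5 8).2 (by omega)
      simpa using this
    rw [this]; rfl

/-- **Different squarefree integers have different characters.** -/
theorem exists_ne {m m' : ℤ} (hm : Squarefree m) (hm' : Squarefree m') (hne : m ≠ m') :
    ∃ n : ℕ, n.Coprime (4 * m.natAbs * (4 * m'.natAbs)) ∧ jacobiSym m n ≠ jacobiSym m' n := by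
  by_cases hA : ∃ p : ℕ, p.Prime ∧ p ≠ 2 ∧ p ∣ m.natAbs ∧ ¬ p ∣ m'.natAbs
  · obtain ⟨p, hp, hp2, h1, h2⟩ := hA
    obtain ⟨n, h3, h4, h5⟩ := exists_of_prime hm hm'.ne_zero hp hp2 h1 h2
    exact ⟨n, h3, by rw [h4, h5]; norm_num⟩
  by_cases hB : ∃ p : ℕ, p.Prime ∧ p ≠ 2 ∧ p ∣ m'.natAbs ∧ ¬ p ∣ m.natAbs
  · obtain ⟨p, hp, hp2, h1, h2⟩ := hB
    obtain ⟨n, h3, h4, h5⟩ := exists_of_prime hm' hm.ne_zero hp hp2 h1 h2
    exact ⟨n, by rw [mul_comm]; exact h3, by rw [h4, h5]; norm_num⟩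
  push_neg at hA hB
  obtain ⟨u, o, hu, ho, hso, e⟩ := exists_parts hm
  obtain ⟨u', o', hu', ho', hso', e'⟩ := exists_parts hm'
  have hdvd : ∀ p : ℕ, p.Prime → p ≠ 2 → (p ∣ m.natAbs ↔ p ∣ o) := by
    intro p hp hp2
    rw [e]
    rcases natAbs_parts (o := o) hu with h | h <;> rw [h]
    rw [hp.dvd_mul]
    constructor
    · rintro (h1 | h1)
      · exact absurd ((Nat.prime_dvd_prime_iff_eq hp Nat.prime_two).1 h1) hp2
      · exact h1
    · exact fun h1 => Or.inr h1
  have hdvd' : ∀ p : ℕ, p.Prime → p ≠ 2 → (p ∣ m'.natAbs ↔ p ∣ o') := by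
    intro p hp hp2
    rw [e']
    rcases natAbs_parts (o := o') hu' with h | h <;> rw [h]
    rw [hp.dvd_mul]
    constructor
    · rintro (h1 | h1)
      · exact absurd ((Nat.prime_dvd_prime_iff_eq hp Nat.prime_two).1 h1) hp2
      · exact h1
    · exact fun h1 => Or.inr h1
  have hoo : o = o' := by
    rw [← Nat.prod_primeFactors_of_squarefree hso, ← Nat.prod_primeFactors_of_squarefree hso']
    apply prod_congr _ fun _ _ => rfl
    ext p
    rw [Nat.mem_primeFactors, Nat.mem_primeFactors]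
    constructor
    · rintro ⟨hp, h1, -⟩
      have hp2 : p ≠ 2 := by
        rintro rfl
        exact (Nat.not_even_iff_odd.2 ho) (even_iff_two_dvd.2 h1)
      exact ⟨hp, (hdvd' p hp hp2).1 (hA p hp hp2 ((hdvd p hp hp2).2 h1)), hso'.ne_zero⟩
    · rintro ⟨hp, h1, -⟩
      have hp2 : p ≠ 2 := by
        rintro rfl
        exact (Nat.not_even_iff_odd.2 ho') (even_iff_two_dvd.2 h1)
      exact ⟨hp, (hdvd p hp hp2).1 (hB p hp hp2 ((hdvd' p hp hp2).2 h1)), hso.ne_zero⟩
  subst hoo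
  have hco : Nat.Coprime 8 o := by
    have h2 : Nat.Coprime 2 o := Nat.coprime_two_left.2 ho
    exact Nat.Coprime.pow_left 3 h2
  have huu : u ≠ u' := by
    rintro rfl
    exact hne (by rw [e, e'])
  -- a residue which separates
  have key : ∀ r : ℕ, (r = 3 ∨ r = 5) → ∃ n : ℕ, n % 8 = r ∧
      n.Coprime (4 * m.natAbs * (4 * m'.natAbs)) ∧ (jacobiSym (o : ℤ) n = 1 ∨ jacobiSym (o : ℤ) n = -1) := by
    intro r hr
    obtain ⟨n, h1, h2⟩ := exists_crt hco r 1
    have hn8 : n % 8 = r := by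
      have h3 : n % 8 = r % 8 := h1
      rw [h3]
      rcases hr with rfl | rfl <;> rfl
    have hno : n.Coprime o := by
      rw [Nat.Coprime, h2.gcd_eq, Nat.gcd_one_left]
    have hn2 : n.Coprime 2 := by
      rw [Nat.coprime_two_right, Nat.odd_iff]
      omega
    have hn4 : n.Coprime 4 := by
      have h4 : (4 : ℕ) = 2 * 2 := rfl
      rw [h4]
      exact Nat.Coprime.mul_right hn2 hn2
    have hnm : ∀ v : ℤ, (v = 1 ∨ v = -1 ∨ v = 2 ∨ v = -2) → n.Coprime (v * o).natAbs := by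
      intro v hv
      rcases natAbs_parts (o := o) hv with h | h <;> rw [h]
      · exact hno
      · exact Nat.Coprime.mul_right hn2 hno
    refine ⟨n, hn8, ?_, ?_⟩
    · rw [e, e']
      exact Nat.Coprime.mul_right (Nat.Coprime.mul_right hn4 (hnm u hu))
        (Nat.Coprime.mul_right hn4 (hnm u' hu'))
    · rcases jacobiSym.trichotomy (o : ℤ) n with h | h | h
      · exfalso
        have : NeZero n := ⟨by rintro rfl; simp at hn2⟩
        rw [jacobiSym.eq_zero_iff_not_coprime] at h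
        apply h
        rw [Int.gcd_natCast_natCast]
        exact hno.symm
      · exact Or.inl h
      · exact Or.inr h
  have hsplit : ∀ n : ℕ, jacobiSym m n = jacobiSym u n * jacobiSym (o : ℤ) n ∧
      jacobiSym m' n = jacobiSym u' n * jacobiSym (o : ℤ) n := fun n =>
    ⟨by rw [e, jacobiSym.mul_left], by rw [e', jacobiSym.mul_left]⟩
  have fin : ∀ r : ℕ, (r = 3 ∨ r = 5) → (∀ n : ℕ, n % 8 = r → jacobiSym u n ≠ jacobiSym u' n) →
      ∃ n : ℕ, n.Coprime (4 * m.natAbs * (4 * m'.natAbs)) ∧ jacobiSym m n ≠ jacobiSym m' n := by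
    intro r hr hsep
    obtain ⟨n, h1, h2, h3⟩ := key r hr
    refine ⟨n, h2, ?_⟩
    obtain ⟨h4, h5⟩ := hsplit n
    rw [h4, h5]
    have h6 := hsep n h1
    intro h7
    apply h6
    rcases h3 with h3 | h3 <;> rw [h3] at h7
    · linarith
    · linarith
  have h1n : ∀ n : ℕ, jacobiSym 1 n = 1 := fun n => jacobiSym.one_left n
  rcases hu with rfl | rfl | rfl | rfl <;> rcases hu' with rfl | rfl | rfl | rfl
  · exact absurd rfl huu
  · exact fin 3 (Or.inl rfl) fun n hn => by rw [h1n, (at_three hn).1]; norm_num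
  · exact fin 3 (Or.inl rfl) fun n hn => by rw [h1n, (at_three hn).2.1]; norm_num
  · exact fin 5 (Or.inr rfl) fun n hn => by rw [h1n, (at_five hn).2.2]; norm_num
  · exact fin 3 (Or.inl rfl) fun n hn => by rw [h1n, (at_three hn).1]; norm_num
  · exact absurd rfl huu
  · exact fin 5 (Or.inr rfl) fun n hn => by rw [(at_five hn).1, (at_five hn).2.1]; norm_num
  · exact fin 3 (Or.inl rfl) fun n hn => by rw [(at_three hn).1, (at_three hn).2.2]; norm_num
  · exact fin 3 (Or.inl rfl) fun n hn => by rw [h1n, (at_three hn).2.1]; norm_num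
  · exact fin 5 (Or.inr rfl) fun n hn => by rw [(at_five hn).1, (at_five hn).2.1]; norm_num
  · exact absurd rfl huu
  · exact fin 3 (Or.inl rfl) fun n hn => by rw [(at_three hn).2.1, (at_three hn).2.2]; norm_num
  · exact fin 5 (Or.inr rfl) fun n hn => by rw [h1n, (at_five hn).2.2]; norm_num
  · exact fin 3 (Or.inl rfl) fun n hn => by rw [(at_three hn).1, (at_three hn).2.2]; norm_num
  · exact fin 3 (Or.inl rfl) fun n hn => by rw [(at_three hn).2.1, (at_three hn).2.2]; norm_num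
  · exact absurd rfl huu

theorem not_agree {m m' : ℤ} (hm : Squarefree m) (hm' : Squarefree m') (hne : m ≠ m') :
    ¬ Agree (kchar m hm.ne_zero) (kchar m' hm'.ne_zero) := by
  intro hag
  obtain ⟨n, h1, h2⟩ := exists_ne hm hm' hne
  have h3 := hag n h1
  rw [kchar_apply m hm.ne_zero n (Nat.Coprime.coprime_mul_right_right h1),
    kchar_apply m' hm'.ne_zero n (Nat.Coprime.coprime_mul_left_right h1)] at h3
  exact h2 (by exact_mod_cast h3)

end Pool.Agent.H439.QD
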