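import Pool.Agent.H439.QD.Dens

/-!
# The frequencies of the splitting patterns: the even monomials
-/

set_option autoImplicit false

namespace Pool.Agent.H439.QD

open Finset Complex ComplexConjugate Filter Topology Pool.Agent.H439.LS Pool.Agent.H439.SP
  Pool.Agent.H439.LL Pool.Agent.A856.QF Pool.Agent.Y293.SF

open Classical in
/-- the number of squarefree integers up to `x` prime to the primes in `T` -/
noncomputable def cnt (T : Finset ℕ) (x : ℕ) : ℕ :=
  ((Icc 1 x).filter fun n => Squarefree n ∧ ∀ p ∈ T, ¬ p ∣ n).card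

lemma cnt_zero (T : Finset ℕ) : cnt T 0 = 0 := by
  unfold cnt
  simp

lemma cnt_le (T : Finset ℕ) (x : ℕ) : cnt T x ≤ x := by
  unfold cnt
  refine (card_filter_le _ _).trans ?_
  rw [Nat.card_Icc]
  omega

lemma cnt_rec {T : Finset ℕ} (hT : ∀ p ∈ T, p.Prime) {p : ℕ} (hp : p.Prime) (hpT : p ∉ T)
    (x : ℕ) : cnt T x = cnt (insert p T) x + cnt (insert p T) (x / p) := by
  classical
  unfold cnt
  rw [← card_filter_add_card_filter_not (s := (Icc 1 x).filter fun n => Squarefree n ∧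
    ∀ p ∈ T, ¬ p ∣ n) (fun n => ¬ p ∣ n)]
  congr 1
  · apply congrArg
    ext n
    simp only [mem_filter, mem_insert, forall_eq_or_imp]
    tauto
  · symm
    apply card_bij (fun n _ => p * n)
    · intro n hn
      simp only [mem_filter, mem_Icc, mem_insert, forall_eq_or_imp, not_not] at hn ⊢
      obtain ⟨⟨h1, h2⟩, h3, h4, h5⟩ := hn
      refine ⟨⟨⟨?_, ?_⟩, ?_, ?_⟩, dvd_mul_right _ _⟩
      · exact Nat.mul_pos hp.pos h1
      · exact (Nat.mul_le_mul_left p h2).trans (Nat.mul_div_le x p)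
      · rw [Nat.squarefree_mul_iff]
        exact ⟨(Nat.Prime.coprime_iff_not_dvd hp).2 h4, hp.prime.squarefree, h3⟩
      · intro q hq hdvd
        rcases (hT q hq).dvd_mul.1 hdvd with h6 | h6
        · have := (Nat.prime_dvd_prime_iff_eq (hT q hq) hp).1 h6
          exact hpT (this ▸ hq)
        · exact h5 q hq h6
    · intro a _ b _ hab
      exact Nat.eq_of_mul_eq_mul_left hp.pos hab
    · intro n hn
      simp only [mem_filter, mem_Icc, not_not] at hn
      obtain ⟨⟨⟨h1, h2⟩, h3, h4⟩, c, rfl⟩ := hn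
      refine ⟨c, ?_, rfl⟩
      simp only [mem_filter, mem_Icc, mem_insert, forall_eq_or_imp]
      rw [Nat.squarefree_mul_iff] at h3
      refine ⟨⟨?_, ?_⟩, h3.2.2, (Nat.Prime.coprime_iff_not_dvd hp).1 h3.1, ?_⟩
      · rcases Nat.eq_zero_or_pos c with h | h
        · subst h; simp at h1
        · exact h
      · rw [Nat.le_div_iff_mul_le hp.pos, mul_comm]
        exact h2
      · intro q hq hdvd
        exact h4 q hq (Dvd.dvd.mul_left hdvd p)

lemma cnt_alt {T : Finset ℕ} (hT : ∀ p ∈ T, p.Prime) {p : ℕ} (hp : p.Prime) (hpT : p ∉ T)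
    (x J : ℕ) : (cnt (insert p T) x : ℝ) = ∑ j ∈ range J, (-1 : ℝ) ^ j * cnt T (x / p ^ j) +
      (-1 : ℝ) ^ J * cnt (insert p T) (x / p ^ J) := by
  induction J with
  | zero => simp
  | succ J ih =>
    rw [sum_range_succ, ih]
    have h1 := cnt_rec hT hp hpT (x / p ^ J)
    rw [Nat.div_div_eq_div_mul, ← pow_succ] at h1
    rw [h1]
    push_cast
    ring

lemma cnt_tsum {T : Finset ℕ} (hT : ∀ p ∈ T, p.Prime) {p : ℕ} (hp : p.Prime) (hpT : p ∉ T)
    (x : ℕ) : (cnt (insert p T) x : ℝ) / x = ∑' j : ℕ, (-1 : ℝ) ^ j * ((cnt T (x / p ^ j) : ℝ) / x) := by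
  have h0 : ∀ j, x ≤ j → x / p ^ j = 0 := by
    intro j hj
    apply Nat.div_eq_of_lt
    calc x ≤ j := hj
      _ < 2 ^ j := Nat.lt_two_pow_self
      _ ≤ p ^ j := Nat.pow_le_pow_left hp.two_le j
  rw [tsum_eq_sum (s := range x)]
  · rw [cnt_alt hT hp hpT x x, h0 x le_rfl, cnt_zero]
    push_cast
    rw [mul_zero, add_zero, sum_div]
    apply sum_congr rfl
    intro j _
    ring
  · intro j hj
    rw [mem_range, not_lt] at hj
    rw [h0 j hj, cnt_zero]
    simp

lemma tendsto_div_pow (κ : ℝ) {T : Finset ℕ} (h : Tendsto (fun x : ℕ => (cnt T x : ℝ) / x) atTop (𝓝 κ))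
    {d : ℕ} (hd : 0 < d) :
    Tendsto (fun x : ℕ => (cnt T (x / d) : ℝ) / x) atTop (𝓝 (κ * (1 / (d : ℝ)))) := by
  have h1 : Tendsto (fun n : ℕ => (⌊(1 / (d : ℝ)) * (n : ℝ)⌋₊ : ℝ) / (n : ℝ)) atTop
      (𝓝 (1 / (d : ℝ))) :=
    (tendsto_nat_floor_mul_div_atTop (by positivity)).comp tendsto_natCast_atTop_atTop
  have h2 : Tendsto (fun x : ℕ => x / d) atTop atTop := Nat.tendsto_div_const_atTop hd.ne'
  refine ((h.comp h2).mul h1).congr fun x => ?_
  rw [Function.comp_apply]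
  have h3 : ⌊(1 / (d : ℝ)) * (x : ℝ)⌋₊ = x / d := by
    rw [one_div_mul_eq_div]
    exact Nat.floor_div_eq_div x d
  rw [h3]
  rcases Nat.eq_zero_or_pos (x / d) with h4 | h4
  · rw [h4, cnt_zero]
    simp
  · have : ((x / d : ℕ) : ℝ) ≠ 0 := by exact_mod_cast h4.ne'
    field_simp

theorem cnt_tendsto (T : Finset ℕ) (hT : ∀ p ∈ T, p.Prime) :
    Tendsto (fun x : ℕ => (cnt T x : ℝ) / x) atTop
      (𝓝 (6 / Real.pi ^ 2 * ∏ p ∈ T, ((p : ℝ) / (p + 1)))) := by
  classical
  induction T using Finset.induction_on with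
  | empty =>
    have := t_SQF
    unfold Pool.Agent.Y859.SF.S_SQF at this
    rw [prod_empty, mul_one]
    refine this.congr fun x => ?_
    unfold cnt
    congr 3
    ext n
    simp
  | insert p T hpT ih =>
    have hT' : ∀ q ∈ T, q.Prime := fun q hq => hT q (mem_insert_of_mem hq)
    have hp := hT p (mem_insert_self _ _)
    have ih := ih hT'
    set κ := 6 / Real.pi ^ 2 * ∏ p ∈ T, ((p : ℝ) / (p + 1)) with hκ
    have hp0 : (0 : ℝ) < p := by exact_mod_cast hp.pos
    have hp2 : (2 : ℝ) ≤ p := by exact_mod_cast hp.two_le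
    have hp1 : 1 / (p : ℝ) < 1 := by
      rw [div_lt_one hp0]
      linarith
    have key : Tendsto (fun x : ℕ => ∑' j : ℕ, (-1 : ℝ) ^ j * ((cnt T (x / p ^ j) : ℝ) / x)) atTop
        (𝓝 (∑' j : ℕ, (-1 : ℝ) ^ j * (κ * (1 / ((p ^ j : ℕ) : ℝ))))) := by
      refine tendsto_tsum_of_dominated_convergence (bound := fun j : ℕ => (1 / (p : ℝ)) ^ j)
        (summable_geometric_of_lt_one (by positivity) hp1) ?_ ?_
      · intro j
        exact (tendsto_div_pow κ ih (pow_pos hp.pos j)).const_mul _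
      · filter_upwards [eventually_gt_atTop 0] with x hx j
        have hx' : (0 : ℝ) < x := by exact_mod_cast hx
        rw [norm_mul, norm_pow, norm_neg, norm_one, one_pow, one_mul,
          Real.norm_of_nonneg (by positivity), div_le_iff₀ hx']
        have h1 : (cnt T (x / p ^ j) : ℝ) ≤ ((x / p ^ j : ℕ) : ℝ) := by exact_mod_cast cnt_le T _
        have h2 : ((x / p ^ j : ℕ) : ℝ) ≤ (x : ℝ) / ((p ^ j : ℕ) : ℝ) := Nat.cast_div_le
        refine (h1.trans h2).trans (le_of_eq ?_)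
        push_cast
        rw [one_div, inv_pow]
        field_simp
    have h3 : ∑' j : ℕ, (-1 : ℝ) ^ j * (κ * (1 / ((p ^ j : ℕ) : ℝ))) =
        6 / Real.pi ^ 2 * ∏ q ∈ insert p T, ((q : ℝ) / (q + 1)) := by
      have h4 : ∀ j : ℕ, (-1 : ℝ) ^ j * (κ * (1 / ((p ^ j : ℕ) : ℝ))) = κ * (-(1 / (p : ℝ))) ^ j := by
        intro j
        push_cast
        rw [neg_pow (1 / (p : ℝ)), one_div, one_div, inv_pow]
        ring
      rw [tsum_congr h4, tsum_mul_left, tsum_geometric_of_norm_lt_one (by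
        rw [norm_neg, Real.norm_of_nonneg (by positivity)]
        exact hp1), prod_insert hpT, hκ]
      have : (1 - -(1 / (p : ℝ)))⁻¹ = p / (p + 1) := by
        field_simp
        ring
      rw [this]
      ring
    rw [h3] at key
    refine key.congr fun x => ?_
    rw [cnt_tsum hT' hp hpT]

/-- the probability that a prime is unramified -/
noncomputable def rho (p : ℕ) : ℝ := if p = 2 then 1 / 3 else (p : ℝ) / (p + 1)

/-- the primes with exponent two -/
def Tk {Y : ℕ} (k : DY Y → ℕ) : Finset ℕ := (univ.filter fun i => k i = 2).image fun i : DY Y => (i : ℕ)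

lemma mem_Tk {Y : ℕ} {k : DY Y → ℕ} {p : ℕ} : p ∈ Tk k ↔ ∃ i : DY Y, k i = 2 ∧ (i : ℕ) = p := by
  unfold Tk
  simp

lemma kr_sq_odd (m : ℤ) {p : ℕ} (hp : p.Prime) (hp2 : p ≠ 2) :
    ((kr m p : ℤ) : ℝ) ^ 2 = if (p : ℤ) ∣ m then 0 else 1 := by
  have hF := Fact.mk hp
  have : NeZero p := ⟨hp.ne_zero⟩
  split_ifs with h
  · have : kr m p = 0 := by
      unfold kr
      rw [if_neg hp2]
      exact jacobi_eq_zero hp (Int.natCast_dvd.1 h)
    rw [this]
    simp
  · have h1 : kr m p ≠ 0 := by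
      unfold kr
      rw [if_neg hp2]
      intro h0
      rw [jacobiSym.eq_zero_iff_not_coprime] at h0
      apply h0
      rw [Int.gcd_eq_natAbs, Int.natAbs_natCast]
      apply Nat.Coprime.symm
      rw [Nat.Prime.coprime_iff_not_dvd hp]
      rwa [← Int.natCast_dvd]
    rcases kr_cases m p with h2 | h2 | h2
    · exact absurd h2 h1
    · rw [h2]; simp
    · rw [h2]; simp

lemma kr_sq_two (m : ℤ) : ((kr m 2 : ℤ) : ℝ) ^ 2 = if m % 4 = 1 then 1 else 0 := by
  unfold kr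
  rw [if_pos rfl]
  split_ifs <;> first | (exfalso; omega) | norm_num

open Classical in
lemma mon_even {Y : ℕ} {k : DY Y → ℕ} (hk : ∀ i, k i = 0 ∨ k i = 2) (m : ℤ) :
    mon Y k m = (if 2 ∈ Tk k then (if m % 4 = 1 then 1 else 0) else 1) *
      (if ∀ p ∈ Tk k, p ≠ 2 → ¬ (p : ℤ) ∣ m then 1 else 0) := by
  have h1 : mon Y k m = ∏ p ∈ Tk k, ((kr m p : ℤ) : ℝ) ^ 2 := by
    unfold mon Tk
    rw [prod_image (fun i _ j _ h => Subtype.ext h), prod_filter]
    apply prod_congr rfl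
    intro i _
    rcases hk i with h | h <;> rw [h] <;> simp
  have h2 : ∏ p ∈ Tk k, ((kr m p : ℤ) : ℝ) ^ 2 =
      (if 2 ∈ Tk k then ((kr m 2 : ℤ) : ℝ) ^ 2 else 1) *
        ∏ p ∈ (Tk k).erase 2, ((kr m p : ℤ) : ℝ) ^ 2 := by
    split_ifs with h
    · rw [mul_prod_erase _ (fun p => ((kr m p : ℤ) : ℝ) ^ 2) h]
    · rw [erase_eq_of_notMem h, one_mul]
  have h3 : ∏ p ∈ (Tk k).erase 2, ((kr m p : ℤ) : ℝ) ^ 2 =
      (if ∀ p ∈ Tk k, p ≠ 2 → ¬ (p : ℤ) ∣ m then 1 else 0) := by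
    have h4 : ∀ p ∈ (Tk k).erase 2, ((kr m p : ℤ) : ℝ) ^ 2 = if (p : ℤ) ∣ m then 0 else 1 := by
      intro p hp
      rw [mem_erase] at hp
      obtain ⟨i, hi1, hi2⟩ := mem_Tk.1 hp.2
      exact kr_sq_odd m (hi2 ▸ prime_DY i) hp.1
    rw [prod_congr rfl h4]
    split_ifs with h
    · apply prod_eq_one
      intro p hp
      rw [mem_erase] at hp
      rw [if_neg (h p hp.2 hp.1)]
    · push Not at h
      obtain ⟨p, hp1, hp2, hp3⟩ := h
      apply prod_eq_zero (mem_erase.2 ⟨hp2, hp1⟩)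
      rw [if_pos hp3]
  rw [h1, h2, h3, kr_sq_two]

open Classical in
lemma mon_sym {Y : ℕ} {k : DY Y → ℕ} (hk : ∀ i, k i = 0 ∨ k i = 2) (n : ℕ) :
    mon Y k n + mon Y k (-(n : ℤ)) = (if 2 ∈ Tk k then 1 else 2) *
      (if ∀ p ∈ Tk k, ¬ p ∣ n then 1 else 0) := by
  rw [mon_even hk, mon_even hk]
  have h1 : (∀ p ∈ Tk k, p ≠ 2 → ¬ (p : ℤ) ∣ -(n : ℤ)) ↔ (∀ p ∈ Tk k, p ≠ 2 → ¬ (p : ℤ) ∣ n) := by
    simp only [dvd_neg]
  by_cases h2 : 2 ∈ Tk k
  · rw [if_pos h2, if_pos h2, if_pos h2]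
    by_cases h3 : ∀ p ∈ Tk k, p ≠ 2 → ¬ (p : ℤ) ∣ n
    · rw [if_pos h3, if_pos (h1.2 h3)]
      by_cases h4 : 2 ∣ n
      · have h5 : ¬ ∀ p ∈ Tk k, ¬ p ∣ n := fun h => h 2 h2 h4
        rw [if_neg h5, if_neg (by omega), if_neg (by omega)]
        simp
      · have h5 : ∀ p ∈ Tk k, ¬ p ∣ n := by
          intro p hp
          by_cases hp2 : p = 2
          · rw [hp2]; exact h4
          · have := h3 p hp hp2
            exact_mod_cast this
        rw [if_pos h5]
        have h6 : (n : ℤ) % 4 = 1 ∨ (n : ℤ) % 4 = 3 := by omega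
        rcases h6 with h6 | h6
        · rw [if_pos h6, if_neg (by omega)]; simp
        · rw [if_neg (by omega), if_pos (by omega)]; simp
    · have h5 : ¬ ∀ p ∈ Tk k, ¬ p ∣ n := by
        intro h
        apply h3
        intro p hp _
        exact_mod_cast h p hp
      rw [if_neg h3, if_neg (fun h => h3 (h1.1 h)), if_neg h5]
      simp
  · rw [if_neg h2, if_neg h2, if_neg h2]
    have h3 : (∀ p ∈ Tk k, p ≠ 2 → ¬ (p : ℤ) ∣ n) ↔ ∀ p ∈ Tk k, ¬ p ∣ n := by
      constructor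
      · intro h p hp
        have := h p hp (fun h0 => h2 (h0 ▸ hp))
        exact_mod_cast this
      · intro h p hp _
        exact_mod_cast h p hp
    by_cases h4 : ∀ p ∈ Tk k, ¬ p ∣ n
    · rw [if_pos h4, if_pos (h3.2 h4), if_pos (h1.2 (h3.2 h4))]
      norm_num
    · rw [if_neg h4, if_neg (fun h => h4 (h3.1 h)), if_neg (fun h => h4 (h3.1 (h1.1 h)))]
      norm_num

lemma sum_IX_sym (G : ℤ → ℝ) (h0 : G 0 = 0) (x : ℕ) :
    ∑ m ∈ IX x, G m = ∑ n ∈ Icc 1 x, (G n + G (-(n : ℤ))) := by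
  induction x with
  | zero =>
    have : IX 0 = {0} := by
      ext m
      rw [mem_IX, mem_singleton]
      push_cast
      omega
    rw [this, sum_singleton, h0]
    simp
  | succ x ih =>
    have h1 : IX (x + 1) = insert ((x + 1 : ℕ) : ℤ) (insert (-((x + 1 : ℕ) : ℤ)) (IX x)) := by
      ext m
      rw [mem_insert, mem_insert, mem_IX, mem_IX]
      push_cast
      omega
    rw [h1, sum_insert, sum_insert, ih, sum_Icc_succ_top (by omega)]
    · ring
    · rw [mem_IX]; push_cast; omega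
    · rw [mem_insert, mem_IX]; push_cast; omega

open Classical in
lemma sum_SF (F : ℤ → ℝ) (x : ℕ) : ∑ m ∈ SF x, F m =
    ∑ n ∈ Icc 1 x, (if Squarefree n then F n + F (-(n : ℤ)) else 0) -
      (if (1 : ℤ) ∈ IX x then F 1 else 0) := by
  have h2 : (SF x) = ((IX x).filter fun m => Squarefree m).erase 1 := by
    ext m
    unfold SF
    simp only [mem_filter, mem_erase]
    tauto
  have h3 : ∑ n ∈ Icc 1 x, (if Squarefree n then F n + F (-(n : ℤ)) else 0) =
      ∑ m ∈ (IX x).filter (fun m => Squarefree m), F m := by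
    rw [sum_filter, sum_IX_sym (fun m => if Squarefree m then F m else 0) (by
      rw [if_neg not_squarefree_zero])]
    apply sum_congr rfl
    intro n _
    have e1 : Squarefree (n : ℤ) ↔ Squarefree n := Int.squarefree_natCast
    have e2 : Squarefree (-(n : ℤ)) ↔ Squarefree n := by
      rw [← Int.squarefree_natAbs, Int.natAbs_neg, Int.natAbs_natCast]
    by_cases hs : Squarefree n
    · rw [if_pos hs, if_pos (e1.2 hs), if_pos (e2.2 hs)]
    · rw [if_neg hs, if_neg (fun h => hs (e1.1 h)), if_neg (fun h => hs (e2.1 h)), add_zero]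
  rw [h3, h2]
  by_cases h4 : (1 : ℤ) ∈ IX x
  · rw [if_pos h4]
    have h5 : (1 : ℤ) ∈ (IX x).filter fun m => Squarefree m := mem_filter.2 ⟨h4, squarefree_one⟩
    rw [← add_sum_erase _ _ h5]
    ring
  · rw [if_neg h4, sub_zero]
    rw [erase_eq_of_notMem]
    intro h5
    exact h4 (mem_filter.1 h5).1

open Classical in
lemma sum_even {Y : ℕ} {k : DY Y → ℕ} (hk : ∀ i, k i = 0 ∨ k i = 2) (x : ℕ) :
    |∑ m ∈ SF x, mon Y k m - (if 2 ∈ Tk k then 1 else 2) * cnt (Tk k) x| ≤ 1 := by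
  have h1 : ∑ n ∈ Icc 1 x, (if Squarefree n then mon Y k n + mon Y k (-(n : ℤ)) else 0) =
      (if 2 ∈ Tk k then 1 else 2) * (cnt (Tk k) x : ℝ) := by
    unfold cnt
    rw [card_filter, Nat.cast_sum, mul_sum]
    apply sum_congr rfl
    intro n _
    rw [mon_sym hk]
    by_cases h1 : Squarefree n
    · by_cases h2 : ∀ p ∈ Tk k, ¬ p ∣ n
      · rw [if_pos h1, if_pos h2,
          if_pos (show Squarefree n ∧ ∀ p ∈ Tk k, ¬ p ∣ n from ⟨h1, h2⟩)]
        norm_num
      · rw [if_pos h1, if_neg h2,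
          if_neg (show ¬ (Squarefree n ∧ ∀ p ∈ Tk k, ¬ p ∣ n) from fun h => h2 h.2)]
        norm_num
    · rw [if_neg h1, if_neg (show ¬ (Squarefree n ∧ ∀ p ∈ Tk k, ¬ p ∣ n) from fun h => h1 h.1)]
      norm_num
  rw [sum_SF, h1]
  rw [show ∀ a b : ℝ, a - b - a = -b by intro a b; ring, abs_neg]
  split_ifs
  · exact abs_mon _ _ _
  · simp

lemma card_SF (x : ℕ) : |((SF x).card : ℝ) - 2 * cnt ∅ x| ≤ 1 := by
  have h1 := sum_even (Y := 0) (k := fun _ => 0) (fun _ => Or.inl rfl) x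
  have h2 : Tk (Y := 0) (fun _ => 0) = ∅ := by
    unfold Tk
    simp
  rw [h2] at h1
  have h3 : ∑ m ∈ SF x, mon 0 (fun _ => 0) m = (SF x).card := by
    have : ∀ m ∈ SF x, mon 0 (fun _ => 0) m = 1 := by
      intro m _
      unfold mon
      simp
    rw [sum_congr rfl this]
    simp
  rw [h3] at h1
  simpa using h1

lemma SF_tendsto : Tendsto (fun x : ℕ => ((SF x).card : ℝ) / x) atTop (𝓝 (2 * (6 / Real.pi ^ 2))) := by
  have h1 := (cnt_tendsto ∅ (by simp)).const_mul 2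
  rw [prod_empty, mul_one] at h1
  have h2 : Tendsto (fun x : ℕ => ((SF x).card : ℝ) / x - 2 * ((cnt ∅ x : ℝ) / x)) atTop (𝓝 0) := by
    have h3 : Tendsto (fun x : ℕ => 1 / (x : ℝ)) atTop (𝓝 0) := tendsto_one_div_atTop_nhds_zero_nat
    apply squeeze_zero_norm' _ h3
    filter_upwards [eventually_gt_atTop 0] with x hx
    have hx' : (0 : ℝ) < x := by exact_mod_cast hx
    have h4 : ((SF x).card : ℝ) / x - 2 * ((cnt ∅ x : ℝ) / x) = (((SF x).card : ℝ) - 2 * cnt ∅ x) / x := by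
      ring
    rw [h4, norm_div, Real.norm_eq_abs, Real.norm_of_nonneg hx'.le]
    exact div_le_div_of_nonneg_right (card_SF x) hx'.le
  have h3 := h2.add h1
  rw [zero_add] at h3
  refine h3.congr fun x => ?_
  ring

lemma six_pi : (1 : ℝ) < 2 * (6 / Real.pi ^ 2) := by
  have h1 := Real.pi_lt_d2
  have h0 := Real.pi_pos
  have h2 : Real.pi ^ 2 < 12 := by nlinarith
  rw [← mul_div_assoc, lt_div_iff₀ (by positivity)]
  linarith

lemma card_SF_ge : ∀ᶠ x : ℕ in atTop, (x : ℝ) ≤ (SF x).card := by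
  filter_upwards [SF_tendsto.eventually (lt_mem_nhds six_pi), eventually_gt_atTop 0] with x hx h0
  have hx' : (0 : ℝ) < x := by exact_mod_cast h0
  rw [lt_div_iff₀ hx', one_mul] at hx
  exact hx.le

/-- the limits of the averages of the powers -/
noncomputable def ee (p : ℕ) (j : ℕ) : ℝ := if j = 0 then 1 else if j = 1 then 0 else rho p

lemma prod_rho {Y : ℕ} {k : DY Y → ℕ} (hk : ∀ i, k i = 0 ∨ k i = 2) :
    ∏ i : DY Y, ee i (k i) = (if 2 ∈ Tk k then 1 else 2) / 2 * ∏ p ∈ Tk k, ((p : ℝ) / (p + 1)) := by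
  have h1 : ∏ i : DY Y, ee i (k i) = ∏ p ∈ Tk k, rho p := by
    unfold Tk
    rw [prod_image (fun i _ j _ h => Subtype.ext h), prod_filter]
    apply prod_congr rfl
    intro i _
    unfold ee
    rcases hk i with h | h <;> rw [h] <;> simp
  rw [h1]
  by_cases h : 2 ∈ Tk k
  · rw [if_pos h, ← mul_prod_erase _ _ h, ← mul_prod_erase _ _ h]
    have h2 : ∏ p ∈ (Tk k).erase 2, rho p = ∏ p ∈ (Tk k).erase 2, ((p : ℝ) / (p + 1)) := by
      apply prod_congr rfl
      intro p hp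
      unfold rho
      rw [if_neg (mem_erase.1 hp).1]
    rw [h2]
    unfold rho
    rw [if_pos rfl]
    push_cast
    ring
  · rw [if_neg h, div_self two_ne_zero, one_mul]
    apply prod_congr rfl
    intro p hp
    unfold rho
    rw [if_neg (fun h0 : p = 2 => h (h0 ▸ hp))]

/-- **The averages of the monomials.** -/
theorem mon_tendsto {Y : ℕ} (k : DY Y → ℕ) (hk : ∀ i, k i ≤ 2) :
    Tendsto (fun x : ℕ => (∑ m ∈ SF x, mon Y k m) / (SF x).card) atTop
      (𝓝 (∏ i : DY Y, ee i (k i))) := by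
  have hS := SF_tendsto
  have hpi : (0 : ℝ) < 6 / Real.pi ^ 2 := by positivity
  have hmain : Tendsto (fun x : ℕ => (∑ m ∈ SF x, mon Y k m) / x) atTop
      (𝓝 ((∏ i : DY Y, ee i (k i)) * (2 * (6 / Real.pi ^ 2)))) := by
    by_cases h : ∃ i₀, k i₀ = 1
    · obtain ⟨i₀, hi₀⟩ := h
      have h1 : ∏ i : DY Y, ee i (k i) = 0 := by
        apply prod_eq_zero (mem_univ i₀)
        unfold ee
        rw [hi₀]
        simp
      rw [h1, zero_mul]
      have h3 : Tendsto (fun x : ℕ => Qm Y * (1 / Real.sqrt (x : ℝ)) + 1 / (x : ℝ)) atTop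
          (𝓝 (Qm Y * 0 + 0)) := by
        apply Tendsto.add
        · apply Tendsto.const_mul
          exact tendsto_const_nhds.div_atTop
            (Real.tendsto_sqrt_atTop.comp tendsto_natCast_atTop_atTop)
        · exact tendsto_one_div_atTop_nhds_zero_nat
      rw [mul_zero, add_zero] at h3
      apply squeeze_zero_norm' _ h3
      filter_upwards [eventually_gt_atTop 0] with x hx
      have hx' : (0 : ℝ) < x := by exact_mod_cast hx
      rw [norm_div, Real.norm_eq_abs, Real.norm_of_nonneg hx'.le]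
      have h4 := sum_mon_le hi₀ x
      have h5 : ((Nat.sqrt x : ℕ) : ℝ) ≤ Real.sqrt x := Real.nat_sqrt_le_real_sqrt
      have h6 : Real.sqrt x * Real.sqrt x = x := Real.mul_self_sqrt hx'.le
      have h7 : 0 < Real.sqrt x := Real.sqrt_pos.2 hx'
      rw [div_le_iff₀ hx']
      refine h4.trans ?_
      have h8 : (Qm Y * (1 / Real.sqrt (x : ℝ)) + 1 / (x : ℝ)) * x = Qm Y * Real.sqrt x + 1 := by
        have : (x : ℝ) / Real.sqrt x = Real.sqrt x := by
          rw [div_eq_iff h7.ne', h6]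
        calc _ = Qm Y * (x / Real.sqrt (x : ℝ)) + (x : ℝ) / x := by ring
          _ = _ := by rw [this, div_self hx'.ne']
      rw [h8]
      have h9 : (0 : ℝ) ≤ Qm Y := Nat.cast_nonneg _
      nlinarith
    · push Not at h
      have hk' : ∀ i, k i = 0 ∨ k i = 2 := by
        intro i
        have := hk i
        have := h i
        omega
      have hT : ∀ p ∈ Tk k, p.Prime := by
        intro p hp
        obtain ⟨i, -, hi⟩ := mem_Tk.1 hp
        exact hi ▸ prime_DY i
      have h1 := (cnt_tendsto (Tk k) hT).const_mul (if 2 ∈ Tk k then (1 : ℝ) else 2)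
      have h2 : Tendsto (fun x : ℕ => (∑ m ∈ SF x, mon Y k m) / x -
          (if 2 ∈ Tk k then (1 : ℝ) else 2) * ((cnt (Tk k) x : ℝ) / x)) atTop (𝓝 0) := by
        have h3 : Tendsto (fun x : ℕ => 1 / (x : ℝ)) atTop (𝓝 0) := tendsto_one_div_atTop_nhds_zero_nat
        apply squeeze_zero_norm' _ h3
        filter_upwards [eventually_gt_atTop 0] with x hx
        have hx' : (0 : ℝ) < x := by exact_mod_cast hx
        have h4 : (∑ m ∈ SF x, mon Y k m) / x -
            (if 2 ∈ Tk k then (1 : ℝ) else 2) * ((cnt (Tk k) x : ℝ) / x) =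
            (∑ m ∈ SF x, mon Y k m - (if 2 ∈ Tk k then (1 : ℝ) else 2) * cnt (Tk k) x) / x := by
          ring
        rw [h4, norm_div, Real.norm_eq_abs, Real.norm_of_nonneg hx'.le]
        exact div_le_div_of_nonneg_right (sum_even hk' x) hx'.le
      have h3 := h2.add h1
      rw [zero_add] at h3
      have h5 : (∏ i : DY Y, ee i (k i)) * (2 * (6 / Real.pi ^ 2)) =
          (if 2 ∈ Tk k then (1 : ℝ) else 2) * (6 / Real.pi ^ 2 * ∏ p ∈ Tk k, ((p : ℝ) / (p + 1))) := by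
        rw [prod_rho hk']
        ring
      rw [h5]
      refine h3.congr fun x => ?_
      ring
  have h1 := hmain.div hS (by positivity)
  rw [mul_div_assoc, div_self (by positivity), mul_one] at h1
  refine h1.congr' ?_
  filter_upwards [eventually_gt_atTop 0, card_SF_ge] with x hx h2
  have hx' : (0 : ℝ) < x := by exact_mod_cast hx
  have h3 : (0 : ℝ) < (SF x).card := lt_of_lt_of_le hx' h2
  simp only [Pi.div_apply]
  field_simp

end Pool.Agent.H439.QD
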