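import Pool.Agent.H439.QD.Mean
import Pool.Graph.R_seed8.Y293.SF.SQF

/-!
# The frequencies of the splitting patterns: the odd monomials
-/

set_option autoImplicit false

namespace Pool.Agent.H439.QD

open Finset Complex ComplexConjugate Filter Topology Pool.Agent.H439.LS Pool.Agent.H439.SP
  Pool.Agent.H439.LL Pool.Agent.A856.QF Pool.Agent.Y293.SF

open Classical in
/-- the squarefree integers other than one, of absolute value at most `x` -/
noncomputable def SF (x : ℕ) : Finset ℤ := (IX x).filter fun m => Squarefree m ∧ m ≠ 1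

/-- the modulus -/
def Qm (Y : ℕ) : ℕ := 8 * ∏ p ∈ (DY Y).filter (· ≠ 2), p

lemma Qm_ne (Y : ℕ) : Qm Y ≠ 0 := by
  unfold Qm
  apply mul_ne_zero (by norm_num)
  apply prod_ne_zero_iff.2
  intro p hp
  exact (mem_filter.1 (mem_filter.1 hp).1).2.ne_zero

instance (Y : ℕ) : NeZero (Qm Y) := ⟨Qm_ne Y⟩

lemma eight_dvd (Y : ℕ) : 8 ∣ Qm Y := ⟨_, rfl⟩

lemma prime_dvd_Qm {Y p : ℕ} (hp : p ∈ DY Y) (hp2 : p ≠ 2) : p ∣ Qm Y := by
  unfold Qm
  apply Dvd.dvd.mul_left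
  exact dvd_prod_of_mem _ (mem_filter.2 ⟨hp, hp2⟩)

lemma kr_congr {m m' : ℤ} {p : ℕ} (h2 : p = 2 → m ≡ m' [ZMOD 8]) (h : p ≠ 2 → m ≡ m' [ZMOD p]) :
    kr m p = kr m' p := by
  unfold kr
  by_cases hp : p = 2
  · rw [if_pos hp, if_pos hp]
    have := h2 hp
    unfold Int.ModEq at this
    rw [this]
  · rw [if_neg hp, if_neg hp, jacobiSym.mod_left m p, jacobiSym.mod_left m' p]
    have := h hp
    unfold Int.ModEq at this
    rw [this]

lemma kr_mod {Y p : ℕ} (hp : p ∈ DY Y) {m m' : ℤ} (h : m ≡ m' [ZMOD (Qm Y : ℕ)]) :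
    kr m p = kr m' p := by
  apply kr_congr
  · intro _
    exact h.of_dvd (by exact_mod_cast eight_dvd Y)
  · intro h2
    exact h.of_dvd (by exact_mod_cast prime_dvd_Qm hp h2)

/-- the monomials -/
noncomputable def mon (Y : ℕ) (k : DY Y → ℕ) (m : ℤ) : ℝ := ∏ i : DY Y, ((kr m i : ℤ) : ℝ) ^ k i

lemma abs_kr (m : ℤ) (p : ℕ) : |((kr m p : ℤ) : ℝ)| ≤ 1 := by
  rcases kr_cases m p with h | h | h <;> rw [h] <;> simp

lemma abs_mon (Y : ℕ) (k : DY Y → ℕ) (m : ℤ) : |mon Y k m| ≤ 1 := by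
  unfold mon
  rw [abs_prod]
  apply prod_le_one (fun _ _ => abs_nonneg _)
  intro i _
  rw [abs_pow]
  exact pow_le_one₀ (abs_nonneg _) (abs_kr m i)

/-- the monomials on the residue classes -/
noncomputable def monz (Y : ℕ) (k : DY Y → ℕ) (a : ZMod (Qm Y)) : ℝ := mon Y k (a.val : ℤ)

lemma monz_cast (Y : ℕ) (k : DY Y → ℕ) (m : ℤ) : monz Y k (m : ZMod (Qm Y)) = mon Y k m := by
  unfold monz mon
  apply prod_congr rfl
  intro i _
  congr 2
  apply kr_mod i.2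
  rw [ZMod.val_intCast]
  exact Int.mod_modEq _ _

lemma kr_mul_odd {n m : ℤ} {p : ℕ} (hp : p ≠ 2) : kr (n * m) p = jacobiSym n p * kr m p := by
  unfold kr
  rw [if_neg hp, if_neg hp, jacobiSym.mul_left]

lemma kr_mul_one {n : ℕ} {m : ℤ} (hn : n ≡ 1 [MOD 8]) : kr (n * m) 2 = kr m 2 := by
  apply kr_congr
  · intro _
    have h1 : (n : ℤ) ≡ 1 [ZMOD 8] := by exact_mod_cast (Int.natCast_modEq_iff.2 hn)
    simpa using h1.mul_right m
  · intro h
    exact absurd rfl h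

lemma kr_mul_five {n : ℕ} {m : ℤ} (hn : n ≡ 5 [MOD 8]) : kr (n * m) 2 = - kr m 2 := by
  have h1 : (n : ℤ) ≡ 5 [ZMOD 8] := by exact_mod_cast (Int.natCast_modEq_iff.2 hn)
  have h2 : kr (n * m) 2 = kr (5 * m) 2 := by
    apply kr_congr
    · intro _
      exact h1.mul_right m
    · intro h
      exact absurd rfl h
  rw [h2]
  unfold kr
  rw [if_pos rfl, if_pos rfl]
  split_ifs <;> first | rfl | omega

lemma jacobi_one_of {n p : ℕ} (h : n ≡ 1 [MOD p]) : jacobiSym (n : ℤ) p = 1 := by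
  rw [jacobiSym.mod_left (n : ℤ) p]
  have h2 : (n : ℤ) % p = (1 : ℤ) % p := by exact_mod_cast h
  rw [h2, ← jacobiSym.mod_left, jacobiSym.one_left]

lemma exists_unit {Y p₀ : ℕ} (hp₀ : p₀ ∈ DY Y) : ∃ n : ℕ, n.Coprime (Qm Y) ∧
    (∀ m : ℤ, kr (n * m) p₀ = - kr m p₀) ∧ ∀ p ∈ DY Y, p ≠ p₀ → ∀ m : ℤ, kr (n * m) p = kr m p := by
  have hpp : p₀.Prime := (mem_filter.1 hp₀).2
  by_cases h2 : p₀ = 2
  · subst h2
    have hcop : Nat.Coprime 8 (∏ p ∈ (DY Y).filter (· ≠ 2), p) := by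
      apply Nat.Coprime.prod_right
      intro p hp
      rw [mem_filter] at hp
      have hp' : p.Prime := (mem_filter.1 hp.1).2
      rw [show (8 : ℕ) = 2 ^ 3 by norm_num]
      exact Nat.Coprime.pow_left 3 ((Nat.coprime_primes Nat.prime_two hp').2 fun h => hp.2 h.symm)
    obtain ⟨n, h5, h1⟩ := exists_crt hcop 5 1
    refine ⟨n, ?_, fun m => kr_mul_five h5, ?_⟩
    · unfold Qm
      apply Nat.Coprime.mul_right
      · rw [Nat.Coprime, h5.gcd_eq]
        norm_num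
      · rw [Nat.Coprime, h1.gcd_eq]
        exact Nat.gcd_one_left _
    · intro p hp hp2 m
      rw [kr_mul_odd hp2, jacobi_one_of, one_mul]
      exact h1.of_dvd (dvd_prod_of_mem _ (mem_filter.2 ⟨hp, hp2⟩))
  · have hFact := Fact.mk hpp
    have hp0 : NeZero p₀ := ⟨hpp.ne_zero⟩
    have hmem : p₀ ∈ (DY Y).filter (· ≠ 2) := mem_filter.2 ⟨hp₀, h2⟩
    set b : ℕ := 8 * ∏ p ∈ ((DY Y).filter (· ≠ 2)).erase p₀, p with hb
    have hQ : Qm Y = p₀ * b := by
      unfold Qm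
      rw [← mul_prod_erase _ _ hmem, hb]
      ring
    have hcop : Nat.Coprime p₀ b := by
      rw [hb]
      apply Nat.Coprime.mul_right
      · rw [show (8 : ℕ) = 2 ^ 3 by norm_num]
        exact Nat.Coprime.pow_right 3 ((Nat.coprime_primes hpp Nat.prime_two).2 h2)
      · apply Nat.Coprime.prod_right
        intro p hp
        rw [mem_erase, mem_filter] at hp
        exact (Nat.coprime_primes hpp (mem_filter.1 hp.2.1).2).2 fun h => hp.1 h.symm
    obtain ⟨c, hc⟩ : ∃ c : ZMod p₀, quadraticChar (ZMod p₀) c = -1 := by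
      apply quadraticChar_exists_neg_one
      rw [ZMod.ringChar_zmod_n]
      exact h2
    obtain ⟨n, hn1, hn2⟩ := exists_crt hcop c.val 1
    have hJp : jacobiSym (n : ℤ) p₀ = -1 := by
      rw [← jacobiSym.legendreSym.to_jacobiSym, legendreSym]
      push_cast
      have : (n : ZMod p₀) = c := by
        have h3 := (ZMod.natCast_eq_natCast_iff n c.val p₀).mpr hn1
        rw [h3, ZMod.natCast_zmod_val]
      rw [this]
      exact hc
    refine ⟨n, ?_, ?_, ?_⟩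
    · rw [hQ]
      apply Nat.Coprime.mul_right
      · by_contra hcon
        have : jacobiSym (n : ℤ) p₀ = 0 := by
          rw [jacobiSym.eq_zero_iff_not_coprime, Int.gcd_natCast_natCast]
          exact hcon
        rw [this] at hJp
        norm_num at hJp
      · rw [Nat.Coprime, hn2.gcd_eq]
        exact Nat.gcd_one_left _
    · intro m
      rw [kr_mul_odd h2, hJp]
      ring
    · intro p hp hpp' m
      by_cases hp2 : p = 2
      · subst hp2
        exact kr_mul_one (hn2.of_dvd ⟨_, rfl⟩)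
      · rw [kr_mul_odd hp2, jacobi_one_of, one_mul]
        apply hn2.of_dvd
        rw [hb]
        apply Dvd.dvd.mul_left
        exact dvd_prod_of_mem _ (mem_erase.2 ⟨hpp', mem_filter.2 ⟨hp, hp2⟩⟩)

lemma mon_unit {Y : ℕ} {k : DY Y → ℕ} {i₀ : DY Y} (hk : k i₀ = 1) {n : ℕ}
    (h1 : ∀ m : ℤ, kr (n * m) i₀ = - kr m i₀)
    (h2 : ∀ p ∈ DY Y, p ≠ (i₀ : ℕ) → ∀ m : ℤ, kr (n * m) p = kr m p) (m : ℤ) :
    mon Y k (n * m) = - mon Y k m := by
  unfold mon
  rw [← mul_prod_erase univ _ (mem_univ i₀), ← mul_prod_erase univ _ (mem_univ i₀), h1, hk,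
    pow_one, pow_one]
  have : ∏ x ∈ univ.erase i₀, ((kr (n * m) x : ℤ) : ℝ) ^ k x =
      ∏ x ∈ univ.erase i₀, ((kr m x : ℤ) : ℝ) ^ k x := by
    apply prod_congr rfl
    intro i hi
    rw [h2 i i.2 fun h => (mem_erase.1 hi).1 (Subtype.ext h)]
  rw [this]
  push_cast
  ring

lemma sum_mon_dil {Y : ℕ} {k : DY Y → ℕ} {i₀ : DY Y} (hk : k i₀ = 1) (d : ℤ) (x : ℕ) :
    |∑ m ∈ IX x, mon Y k (d * m)| ≤ Qm Y := by
  obtain ⟨n, hn0, hn1, hn2⟩ := exists_unit i₀.2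
  set h : ZMod (Qm Y) → ℝ := fun a => monz Y k ((d : ZMod (Qm Y)) * a) with hh
  have hval : ∀ a : ZMod (Qm Y), ((a.val : ℤ) : ZMod (Qm Y)) = a := by
    intro a
    rw [Int.cast_natCast, ZMod.natCast_zmod_val]
  have h0 : ∑ a, h a = 0 := by
    apply sum_zero_of_unit h (ZMod.unitOfCoprime n hn0)
    intro a
    simp only [hh]
    rw [ZMod.coe_unitOfCoprime, ← hval a]
    have e1 : (d : ZMod (Qm Y)) * ((n : ZMod (Qm Y)) * ((a.val : ℤ) : ZMod (Qm Y))) =
        (((n : ℤ) * (d * (a.val : ℤ)) : ℤ) : ZMod (Qm Y)) := by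
      push_cast
      ring
    have e2 : (d : ZMod (Qm Y)) * ((a.val : ℤ) : ZMod (Qm Y)) =
        ((d * (a.val : ℤ) : ℤ) : ZMod (Qm Y)) := by
      push_cast
      ring
    rw [e1, e2, monz_cast, monz_cast, mon_unit hk hn1 hn2]
  have hb : ∀ a, |h a| ≤ 1 := fun a => abs_mon _ _ _
  have h3 := sum_int_le h h0 hb x
  have h4 : ∀ m : ℤ, h (m : ZMod (Qm Y)) = mon Y k (d * m) := by
    intro m
    simp only [hh]
    rw [← Int.cast_mul, monz_cast]
  simp_rw [h4] at h3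
  exact h3

lemma kr_zero {p : ℕ} (hp : p.Prime) : kr 0 p = 0 := by
  unfold kr
  by_cases h : p = 2
  · rw [if_pos h, if_neg (by norm_num), if_neg (by norm_num)]
  · rw [if_neg h]
    exact jacobiSym.zero_left hp.one_lt

lemma mon_zero {Y : ℕ} {k : DY Y → ℕ} {i₀ : DY Y} (hk : k i₀ = 1) : mon Y k 0 = 0 := by
  unfold mon
  apply prod_eq_zero (mem_univ i₀)
  rw [kr_zero (prime_DY i₀), hk]
  simp

lemma mem_IX {x : ℕ} {m : ℤ} : m ∈ IX x ↔ -(x : ℤ) ≤ m ∧ m ≤ x := by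
  unfold IX
  exact mem_Icc

open Classical in
lemma indic_int {x : ℕ} {m : ℤ} (hm : m ∈ IX x) (h0 : m ≠ 0) :
    (if Squarefree m then (1 : ℝ) else 0) =
      ∑ d ∈ Icc 1 (Nat.sqrt x), if ((d : ℤ) ^ 2) ∣ m then mu d else 0 := by
  have h1 := indic_eq m.natAbs (Int.natAbs_ne_zero.2 h0)
  have h2 : (if Squarefree m then (1 : ℝ) else 0) = if Squarefree m.natAbs then (1 : ℝ) else 0 := by
    simp only [Int.squarefree_natAbs]
  have h3 : ∀ d : ℕ, ((d : ℤ) ^ 2) ∣ m ↔ d ^ 2 ∣ m.natAbs := by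
    intro d
    rw [← Int.natCast_dvd]
    push_cast
    rfl
  rw [h2]
  have h4 : (if Squarefree m.natAbs then (1 : ℝ) else 0) =
      ∑ d ∈ Finset.Icc 1 m.natAbs, if d ^ 2 ∣ m.natAbs then mu d else 0 := by
    rw [← h1]
  rw [h4, ← sum_filter, ← sum_filter]
  rw [mem_IX] at hm
  apply sum_congr _ fun _ _ => rfl
  ext d
  rw [mem_filter, mem_filter, mem_Icc, mem_Icc, h3]
  constructor
  · rintro ⟨⟨h5, h6⟩, h7⟩
    refine ⟨⟨h5, ?_⟩, h7⟩
    rw [Nat.le_sqrt]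
    have := Nat.le_of_dvd (Nat.pos_of_ne_zero (Int.natAbs_ne_zero.2 h0)) h7
    rw [← sq]
    omega
  · rintro ⟨⟨h5, h6⟩, h7⟩
    refine ⟨⟨h5, ?_⟩, h7⟩
    have := Nat.le_of_dvd (Nat.pos_of_ne_zero (Int.natAbs_ne_zero.2 h0)) h7
    nlinarith

lemma sum_mult (F : ℤ → ℝ) (x : ℕ) {d : ℕ} (hd : 1 ≤ d) :
    ∑ m ∈ IX x, (if ((d : ℤ) ^ 2) ∣ m then F m else 0) =
      ∑ m ∈ IX (x / d ^ 2), F ((d : ℤ) ^ 2 * m) := by
  rw [← sum_filter]
  have hd2 : (0 : ℤ) < (d : ℤ) ^ 2 := by positivity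
  have hd2' : 0 < d ^ 2 := by positivity
  symm
  refine sum_bij (fun m _ => (d : ℤ) ^ 2 * m) ?_ ?_ ?_ ?_
  · intro m hm
    rw [mem_IX] at hm
    rw [mem_filter, mem_IX]
    have h1 : ((x / d ^ 2 : ℕ) : ℤ) * (d : ℤ) ^ 2 ≤ x := by
      exact_mod_cast Nat.div_mul_le_self x (d ^ 2)
    refine ⟨⟨?_, ?_⟩, Dvd.intro _ rfl⟩ <;> nlinarith
  · intro a _ b _ hab
    exact mul_left_cancel₀ hd2.ne' hab
  · intro m hm
    rw [mem_filter, mem_IX] at hm
    obtain ⟨⟨h1, h2⟩, c, hc⟩ := hm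
    refine ⟨c, ?_, hc.symm⟩
    rw [mem_IX]
    have h3 : ((x / d ^ 2 : ℕ) : ℤ) = (x : ℤ) / (d : ℤ) ^ 2 := by push_cast; rfl
    rw [h3]
    constructor
    · have : -c ≤ (x : ℤ) / (d : ℤ) ^ 2 := by
        rw [Int.le_ediv_iff_mul_le hd2]
        nlinarith
      linarith
    · rw [Int.le_ediv_iff_mul_le hd2]
      nlinarith
  · intro _ _
    rfl

open Classical in
/-- **The odd monomials.** -/
theorem sum_mon_le {Y : ℕ} {k : DY Y → ℕ} {i₀ : DY Y} (hk : k i₀ = 1) (x : ℕ) :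
    |∑ m ∈ SF x, mon Y k m| ≤ Qm Y * Nat.sqrt x + 1 := by
  have h1 : ∑ m ∈ SF x, mon Y k m = ∑ m ∈ IX x, (if Squarefree m then (1 : ℝ) else 0) * mon Y k m -
      (if (1 : ℤ) ∈ IX x then mon Y k 1 else 0) := by
    have h2 : (SF x) = ((IX x).filter fun m => Squarefree m).erase 1 := by
      ext m
      unfold SF
      simp only [mem_filter, mem_erase]
      tauto
    have h3 : ∑ m ∈ IX x, (if Squarefree m then (1 : ℝ) else 0) * mon Y k m =
        ∑ m ∈ (IX x).filter (fun m => Squarefree m), mon Y k m := by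
      rw [sum_filter]
      apply sum_congr rfl
      intro m _
      split_ifs <;> simp
    rw [h3, h2]
    by_cases h4 : (1 : ℤ) ∈ IX x
    · rw [if_pos h4]
      have h5 : (1 : ℤ) ∈ (IX x).filter fun m => Squarefree m := mem_filter.2 ⟨h4, squarefree_one⟩
      rw [← add_sum_erase _ _ h5]
      ring
    · rw [if_neg h4, sub_zero]
      rw [erase_eq_of_notMem]
      intro h5
      exact h4 (mem_filter.1 h5).1
  have h2 : ∑ m ∈ IX x, (if Squarefree m then (1 : ℝ) else 0) * mon Y k m =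
      ∑ d ∈ Icc 1 (Nat.sqrt x), mu d * ∑ m ∈ IX (x / d ^ 2), mon Y k ((d : ℤ) ^ 2 * m) := by
    have h3 : ∀ m ∈ IX x, (if Squarefree m then (1 : ℝ) else 0) * mon Y k m =
        ∑ d ∈ Icc 1 (Nat.sqrt x), mu d * (if ((d : ℤ) ^ 2) ∣ m then mon Y k m else 0) := by
      intro m hm
      by_cases h0 : m = 0
      · subst h0
        rw [mon_zero hk, mul_zero]
        symm
        apply sum_eq_zero
        intro d _
        split_ifs <;> simp
      · rw [indic_int hm h0, sum_mul]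
        apply sum_congr rfl
        intro d _
        split_ifs <;> simp
    rw [sum_congr rfl h3, sum_comm]
    apply sum_congr rfl
    intro d hd
    rw [← mul_sum, sum_mult _ _ (mem_Icc.1 hd).1]
  have h3 : |∑ m ∈ IX x, (if Squarefree m then (1 : ℝ) else 0) * mon Y k m| ≤
      Qm Y * Nat.sqrt x := by
    rw [h2]
    refine (abs_sum_le_sum_abs _ _).trans ?_
    have h4 : ∀ d ∈ Icc 1 (Nat.sqrt x), |mu d * ∑ m ∈ IX (x / d ^ 2), mon Y k ((d : ℤ) ^ 2 * m)| ≤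
        (Qm Y : ℝ) := by
      intro d _
      rw [abs_mul]
      have h5 := abs_mu_le d
      have h6 := sum_mon_dil hk ((d : ℤ) ^ 2) (x / d ^ 2)
      calc _ ≤ 1 * (Qm Y : ℝ) := mul_le_mul h5 h6 (abs_nonneg _) zero_le_one
        _ = _ := one_mul _
    refine (sum_le_sum h4).trans ?_
    rw [sum_const, Nat.card_Icc, nsmul_eq_mul, Nat.add_sub_cancel]
    rw [mul_comm]
  rw [h1]
  refine (abs_sub _ _).trans ?_
  apply add_le_add h3
  split_ifs
  · exact abs_mon _ _ _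
  · simp

end Pool.Agent.H439.QD
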