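import Pool.Agent.H439.QD.Model

/-!
# The limiting distribution
-/

set_option autoImplicit false
set_option linter.unusedSectionVars false
set_option linter.unusedVariables false

namespace Pool.Agent.H439.QD

open Finset Complex ComplexConjugate Filter Topology MeasureTheory ProbabilityTheory NumberField
  IsDedekindDomain Polynomial Pool.Agent.TH339.MP Pool.Agent.H439.LS Pool.Agent.H439.SP
  Pool.Agent.H439.LL

open scoped NNReal

section
variable {K : Type} [Field K] [NumberField K] {N : ℕ}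
variable {P : HeightOneSpectrum (𝓞 K) → ℂ[X]} {w : ℝ}

lemma norm_exs {Y : ℕ} {σ : DY Y → ℤ} (hσ : σ ∈ PT Y) (t : ℝ) (p : Nat.Primes) :
    ‖exs Y σ t p‖ ≤ 1 := by
  rw [mem_PT] at hσ
  unfold exs
  rw [norm_mul, norm_ph _ p.2.pos, mul_one]
  split_ifs with h
  · have := mem_T3.1 (hσ ⟨p, h⟩)
    rcases this with h1 | h1 | h1 <;> rw [h1] <;> simp
  · simp

lemma tendsto_EU (hP : HW P N w) {Y : ℕ} {σ : DY Y → ℤ} (hσ : σ ∈ PT Y) (t : ℝ) :
    Tendsto (fun ε : ℝ => EU P (exs Y σ t) (1 + (w : ℂ) / 2 + (ε : ℂ)) (Y : ℝ)) (𝓝 0)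
      (𝓝 (EU P (exs Y σ t) (1 + (w : ℂ) / 2 + ((0 : ℝ) : ℂ)) (Y : ℝ))) := by
  unfold EU
  apply tendsto_finsetProd
  intro v _
  have hn2 := nm_ge_two v
  have hn0 : (0 : ℝ) < (nm v : ℝ) := by linarith
  have hnpos : 0 < nm v := by exact_mod_cast hn0
  have hne : ((nm v : ℕ) : ℂ) ≠ 0 := by exact_mod_cast hnpos.ne'
  apply Tendsto.inv₀
  · have hc : Continuous fun ε : ℝ => (P v).eval (exs Y σ t (pr v : Nat.Primes) ^ dg v *
        ((nm v : ℕ) : ℂ) ^ (-(1 + (w : ℂ) / 2 + (ε : ℂ)))) := by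
      apply (P v).continuous.comp
      apply Continuous.mul continuous_const
      apply Continuous.const_cpow _ (Or.inl hne)
      fun_prop
    exact hc.tendsto 0
  · apply (eval_bounds hP v _).2.2
    rw [norm_mul, norm_pow, norm_natCast_cpow_of_pos hnpos]
    have h1 : ‖exs Y σ t (pr v : Nat.Primes)‖ ^ dg v ≤ 1 :=
      pow_le_one₀ (norm_nonneg _) (norm_exs hσ t _)
    have h2 : (-(1 + (w : ℂ) / 2 + ((0 : ℝ) : ℂ))).re = -(1 + w / 2) := by
      have := re_s w 0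
      rw [neg_re, this]
      ring
    rw [h2]
    calc _ ≤ 1 * (nm v : ℝ) ^ (-(1 + w / 2)) := by
          apply mul_le_mul h1 le_rfl (by positivity) (by norm_num)
      _ = _ := one_mul _

/-- the expectation at the level `Y` -/
noncomputable def Ph (P : HeightOneSpectrum (𝓞 K) → ℂ[X]) (w : ℝ) (f : ℂ → ℝ) (t : ℝ) (Y : ℕ)
    (ε : ℝ) : ℝ :=
  ∑ σ ∈ PT Y, f (EU P (exs Y σ t) (1 + (w : ℂ) / 2 + (ε : ℂ)) (Y : ℝ)) * ∏ i : DY Y, pr3 i (σ i)

lemma tendsto_Ph (hP : HW P N w) {f : ℂ → ℝ} (hf : Continuous f) (t : ℝ) (Y : ℕ) :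
    Tendsto (Ph P w f t Y) (𝓝 0) (𝓝 (Ph P w f t Y 0)) := by
  unfold Ph
  apply tendsto_finsetSum
  intro σ hσ
  apply Tendsto.mul_const
  exact (hf.tendsto _).comp (tendsto_EU hP hσ t)

lemma integral_EPq {Ω : Type} [MeasurableSpace Ω] {μ : Measure Ω} [IsProbabilityMeasure μ]
    {X : ℕ → Ω → ℤ} (h : Rad μ X) (f : ℂ → ℝ) (t : ℝ) (Y : ℕ) (ε : ℝ) :
    ∫ ω, f (EP P (qX X t ω) (1 + (w : ℂ) / 2 + (ε : ℂ)) Y) ∂μ = Ph P w f t Y ε := by
  simp_rw [EP_qX h]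
  exact h.integral_pat Y (fun σ => f (EU P (exs Y σ t) (1 + (w : ℂ) / 2 + (ε : ℂ)) (Y : ℝ)))

/-- the expectations form a Cauchy family -/
lemma cauchy_q (hP : HW P N w) {f : ℂ → ℝ} (hf : Continuous f) {D : ℝ} (hD : ∀ z, |f z| ≤ D)
    (t : ℝ) {η : ℝ} (hη : 0 < η) :
    ∃ (ℓ ε₀ : ℝ), 0 < ε₀ ∧ ∀ (Ω : Type) [MeasurableSpace Ω] (μ : Measure Ω) [IsProbabilityMeasure μ]
      (X : ℕ → Ω → ℤ), Rad μ X → ∀ ε : ℝ, 0 < ε → ε ≤ ε₀ →
        |∫ ω, f (LG P (qX X t ω) (1 + (w : ℂ) / 2 + (ε : ℂ))) ∂μ - ℓ| ≤ η := by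
  obtain ⟨Y, hY⟩ := (rad_close hP hf hD (half_pos hη)).exists
  have h1 := (tendsto_Ph hP hf t Y).eventually (Metric.ball_mem_nhds _ (half_pos hη))
  obtain ⟨r, hr, h2⟩ := Metric.eventually_nhds_iff.1 h1
  refine ⟨Ph P w f t Y 0, r / 2, by positivity, fun Ω _ μ _ X hX ε hε0 hε1 => ?_⟩
  have h3 := hY Ω μ X hX t ε hε0
  rw [integral_EPq hX] at h3
  have h4 := h2 (y := ε) (by
    rw [Real.dist_eq, sub_zero, abs_of_pos hε0]
    linarith)
  rw [Real.dist_eq] at h4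
  rw [abs_sub_comm] at h3
  have := abs_sub_le (∫ ω, f (LG P (qX X t ω) (1 + (w : ℂ) / 2 + (ε : ℂ))) ∂μ) (Ph P w f t Y ε)
    (Ph P w f t Y 0)
  linarith

/-- the annulus -/
def ann (B : ℝ) : Set ℂ := {z | Real.exp (-B) ≤ ‖z‖ ∧ ‖z‖ ≤ Real.exp B}

lemma isCompact_ann (B : ℝ) : IsCompact (ann B) := by
  apply (isCompact_closedBall (0 : ℂ) (Real.exp B)).of_isClosed_subset
  · apply IsClosed.inter
    · exact isClosed_le continuous_const continuous_norm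
    · exact isClosed_le continuous_norm continuous_const
  · intro z hz
    rw [mem_closedBall_zero_iff]
    exact hz.2

lemma mem_ann {B : ℝ} {z : ℂ} (hz : z ≠ 0) (h : |Real.log ‖z‖| ≤ B) : z ∈ ann B := by
  have h0 : 0 < ‖z‖ := norm_pos_iff.2 hz
  rw [abs_le] at h
  constructor
  · rw [← Real.exp_log h0]
    exact Real.exp_le_exp.2 h.1
  · rw [← Real.exp_log h0]
    exact Real.exp_le_exp.2 h.2

lemma tight_rad (hP : HW P N w) {η : ℝ} (hη : 0 < η) :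
    ∃ B : ℝ, ∀ (Ω : Type) [MeasurableSpace Ω] (μ : Measure Ω) [IsProbabilityMeasure μ]
      (X : ℕ → Ω → ℤ), Rad μ X → ∀ (t ε : ℝ), 0 < ε →
        μ.real {ω | LG P (qX X t ω) (1 + (w : ℂ) / 2 + (ε : ℂ)) ∉ ann B} ≤ η := by
  obtain ⟨Y, hY⟩ := (good_rad hP one_pos hη).exists
  refine ⟨Real.log (BB K N (Y : ℝ)) + 1, fun Ω _ μ _ X hX t ε hε => ?_⟩
  refine le_trans (measureReal_mono ?_) (hY Ω μ X hX t ε hε)
  intro ω hω hgood
  obtain ⟨h1, h2⟩ := log_of_good hP (pm_qX hX t ω) hε hgood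
  exact hω (mem_ann h2 h1)

/-- **The limiting distribution of the random Euler products.** -/
theorem exists_limit (hP : HW P N w) (t : ℝ) :
    ∃ ν : ProbabilityMeasure ℂ, (ν : Measure ℂ) {0} = 0 ∧
      ∀ (f : ℂ → ℝ), Continuous f → ∀ D : ℝ, (∀ z, |f z| ≤ D) → ∀ η : ℝ, 0 < η →
        ∃ ε₀ : ℝ, 0 < ε₀ ∧ ∀ (Ω : Type) [MeasurableSpace Ω] (μ : Measure Ω) [IsProbabilityMeasure μ]
          (X : ℕ → Ω → ℤ), Rad μ X → ∀ ε : ℝ, 0 < ε → ε ≤ ε₀ →
            |∫ ω, f (LG P (qX X t ω) (1 + (w : ℂ) / 2 + (ε : ℂ))) ∂μ - ∫ z, f z ∂(ν : Measure ℂ)| ≤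
              η := by
  classical
  set X₀ : ℕ → (Nat.Primes → unitInterval) → ℤ := fun n ω => rqf ω n with hX₀
  have hX : Rad pmu X₀ := model_q
  set ev : ℕ → ℝ := fun j => 1 / ((j : ℝ) + 1) with hev
  have hev0 : ∀ j, 0 < ev j := fun j => by rw [hev]; positivity
  set L : ℕ → (Nat.Primes → unitInterval) → ℂ := fun j ω =>
    LG P (qX X₀ t ω) (1 + (w : ℂ) / 2 + ((ev j : ℝ) : ℂ)) with hL
  have hLm : ∀ j, Measurable (L j) := fun j => measurable_LGq (μ := pmu) hP hX t (hev0 j)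
  set law : ℕ → ProbabilityMeasure ℂ := fun j =>
    ⟨pmu.map (L j), Measure.isProbabilityMeasure_map (hLm j).aemeasurable⟩ with hlaw
  have hB := fun n : ℕ => tight_rad (P := P) hP (η := 1 / ((n : ℝ) + 1)) (by positivity)
  choose B hB using hB
  set u : ℕ → ℝ≥0 := fun n => 1 / ((n : ℝ≥0) + 1) with hu
  have hu0 : Tendsto u atTop (𝓝 0) := tendsto_one_div_add_atTop_nhds_zero_nat
  have hS := isCompact_setOfPred_probabilityMeasure_mass_eq_compl_isCompact_le (E := ℂ) (u := u)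
    (K := fun n => ann (B n)) hu0 (fun n => isCompact_ann _) (Or.inl inferInstance)
  have hmem : ∀ j, law j ∈ {μ : ProbabilityMeasure ℂ | ∀ n, μ (ann (B n))ᶜ ≤ u n} := by
    intro j n
    have h1 := hB n _ pmu X₀ hX t (ev j) (hev0 j)
    have h2 : pmu.real {ω | LG P (qX X₀ t ω) (1 + (w : ℂ) / 2 + ((ev j : ℝ) : ℂ)) ∉ ann (B n)} =
        ((law j (ann (B n))ᶜ : ℝ≥0) : ℝ) := by
      change _ = ((pmu.map (L j)) (ann (B n))ᶜ).toReal
      rw [Measure.map_apply (hLm j) (isCompact_ann _).isClosed.measurableSet.compl]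
      rfl
    rw [h2] at h1
    have h3 : ((u n : ℝ≥0) : ℝ) = 1 / ((n : ℝ) + 1) := by
      rw [hu]
      push_cast
      rfl
    rw [← h3] at h1
    exact_mod_cast h1
  obtain ⟨ν, hν, hcl⟩ := hS.exists_mapClusterPt (f := atTop) (u := law)
    (tendsto_principal.2 (Eventually.of_forall hmem))
  refine ⟨ν, ?_, ?_⟩
  · have h1 : ∀ n, (ν : Measure ℂ) {0} ≤ (u n : ENNReal) := by
      intro n
      have h2 : (ν : Measure ℂ) (ann (B n))ᶜ ≤ (u n : ENNReal) := by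
        rw [← ProbabilityMeasure.ennreal_coeFn_eq_coeFn_toMeasure]
        exact_mod_cast hν n
      refine le_trans (measure_mono ?_) h2
      intro z hz
      rw [Set.mem_singleton_iff] at hz
      subst hz
      intro h3
      have := h3.1
      rw [norm_zero] at this
      exact absurd (Real.exp_pos (-B n)) (not_lt.2 this)
    have h2 : Tendsto (fun n => (u n : ENNReal)) atTop (𝓝 0) := by
      have := ENNReal.tendsto_coe.2 hu0
      rwa [ENNReal.coe_zero] at this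
    exact le_antisymm (ge_of_tendsto' h2 h1) bot_le
  · intro f hf D hD η hη
    obtain ⟨ℓ, ε₀, hε₀, h1⟩ := cauchy_q hP hf hD t (half_pos hη)
    refine ⟨ε₀, hε₀, fun Ω _ μ _ X hX' ε hε0 hε1 => ?_⟩
    have h2 := h1 Ω μ X hX' ε hε0 hε1
    -- the integral of `f` with respect to `ν`
    set F : BoundedContinuousFunction ℂ ℝ := BoundedContinuousFunction.ofNormedAddCommGroup f hf D
      (fun z => by rw [Real.norm_eq_abs]; exact hD z) with hF
    have hcont : Continuous fun ρ : ProbabilityMeasure ℂ => ∫ z, F z ∂(ρ : Measure ℂ) := by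
      rw [continuous_iff_continuousAt]
      intro ρ
      exact (ProbabilityMeasure.tendsto_iff_forall_integral_tendsto.1 tendsto_id) F
    have hcl2 : MapClusterPt (∫ z, f z ∂(ν : Measure ℂ)) atTop
        (fun j => ∫ z, f z ∂(law j : Measure ℂ)) :=
      hcl.continuousAt_comp hcont.continuousAt
    have h3 : ∀ᶠ j in atTop, ∫ z, f z ∂(law j : Measure ℂ) ∈ Metric.closedBall ℓ (η / 2) := by
      have h4 : Tendsto ev atTop (𝓝 0) := tendsto_one_div_add_atTop_nhds_zero_nat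
      filter_upwards [h4.eventually (gt_mem_nhds hε₀)] with j hj
      have h5 := h1 _ pmu X₀ hX (ev j) (hev0 j) hj.le
      rw [Metric.mem_closedBall, Real.dist_eq]
      have h6 : ∫ z, f z ∂(law j : Measure ℂ) =
          ∫ ω, f (LG P (qX X₀ t ω) (1 + (w : ℂ) / 2 + ((ev j : ℝ) : ℂ))) ∂pmu := by
        change ∫ z, f z ∂(pmu.map (L j)) = _
        rw [integral_map (hLm j).aemeasurable hf.measurable.aestronglyMeasurable]
      rw [h6]
      exact h5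
    have h4 : ∫ z, f z ∂(ν : Measure ℂ) ∈ Metric.closedBall ℓ (η / 2) := by
      by_contra hcon
      have h5 : (Metric.closedBall ℓ (η / 2))ᶜ ∈ 𝓝 (∫ z, f z ∂(ν : Measure ℂ)) :=
        Metric.isClosed_closedBall.isOpen_compl.mem_nhds hcon
      have h6 := hcl2.frequently h5
      obtain ⟨j, hj1, hj2⟩ := (h6.and_eventually h3).exists
      exact hj1 hj2
    rw [Metric.mem_closedBall, Real.dist_eq] at h4
    have h5 := abs_sub_le (∫ ω, f (LG P (qX X t ω) (1 + (w : ℂ) / 2 + (ε : ℂ))) ∂μ) ℓ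
      (∫ z, f z ∂(ν : Measure ℂ))
    rw [abs_sub_comm] at h4
    linarith

/-- **The limiting distribution of the quadratic twists.** -/
theorem dist_q (hP : HW P N w) (t : ℝ) :
    ∃ ν : Measure ℂ, IsProbabilityMeasure ν ∧ ν {0} = 0 ∧
      ∀ (f : ℂ → ℝ), Continuous f → (∃ D : ℝ, ∀ z, |f z| ≤ D) →
        (∀ c : ℝ, 0 < c → c < 1 / 8 → ∀ η : ℝ, 0 < η → ∃ (X₀ : ℕ) (ε₀ : ℝ), 0 < ε₀ ∧
          ∀ x : ℕ, X₀ ≤ x → ∀ ε : ℝ, Real.exp (-(x : ℝ) ^ c) ≤ ε → ε ≤ ε₀ →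
            |((SF x).card : ℝ)⁻¹ * ∑ m ∈ SF x, f (LG P (qg m t) (1 + (w : ℂ) / 2 + (ε : ℂ))) -
              ∫ z, f z ∂ν| ≤ η) ∧
        (∀ (Ω : Type) [MeasurableSpace Ω] (μ : Measure Ω) [IsProbabilityMeasure μ]
          (X : ℕ → Ω → ℤ), Rad μ X →
            Tendsto (fun ε : ℝ => ∫ ω, f (LG P (qX X t ω) (1 + (w : ℂ) / 2 + (ε : ℂ))) ∂μ)
              (𝓝[>] 0) (𝓝 (∫ z, f z ∂ν))) := by
  obtain ⟨ν, h0, h1⟩ := exists_limit hP t
  refine ⟨ν, inferInstance, h0, fun f hf hD => ?_⟩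
  obtain ⟨D, hD⟩ := hD
  constructor
  · intro c hc hc8 η hη
    obtain ⟨ε₀, hε₀, h2⟩ := h1 f hf D hD (η / 2) (half_pos hη)
    obtain ⟨X₁, h3⟩ := limit_law_q hP (A := 1) le_rfl hc hc8 hf hD (half_pos hη)
    obtain ⟨X₂, hX₂⟩ := exists_nat_ge |t|
    refine ⟨max X₁ X₂, min ε₀ (1 / 2), by positivity, fun x hx ε hε0 hε1 => ?_⟩
    have hε : 0 < ε := lt_of_lt_of_le (Real.exp_pos _) hε0
    have h4 := h3 x ((le_max_left _ _).trans hx) t (by
      rw [Real.rpow_one]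
      refine hX₂.trans ?_
      exact_mod_cast (le_max_right _ _).trans hx) ε hε0 (hε1.trans (min_le_right _ _)) _ pmu _ model_q
    have h5 := h2 _ pmu _ model_q ε hε (hε1.trans (min_le_left _ _))
    have h6 := abs_sub_le
      (((SF x).card : ℝ)⁻¹ * ∑ m ∈ SF x, f (LG P (qg m t) (1 + (w : ℂ) / 2 + (ε : ℂ))))
      (∫ ω, f (LG P (qX (fun n ω => rqf ω n) t ω) (1 + (w : ℂ) / 2 + (ε : ℂ))) ∂pmu)
      (∫ z, f z ∂(ν : Measure ℂ))
    linarith
  · intro Ω _ μ _ X hX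
    rw [Metric.tendsto_nhds]
    intro η hη
    obtain ⟨ε₀, hε₀, h2⟩ := h1 f hf D hD (η / 2) (half_pos hη)
    filter_upwards [Ioc_mem_nhdsGT hε₀] with ε hε
    rw [Real.dist_eq]
    have := h2 Ω μ X hX ε hε.1 hε.2
    linarith

end

end Pool.Agent.H439.QD
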