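import Pool.Agent.H439.QD.Tail
import Pool.Agent.H439.LL.Main

/-!
# The limit law for the quadratic twists
-/

set_option autoImplicit false
set_option linter.unusedSectionVars false
set_option linter.unusedVariables false

namespace Pool.Agent.H439.QD

open Finset Complex ComplexConjugate Filter Topology MeasureTheory ProbabilityTheory NumberField
  IsDedekindDomain Polynomial Pool.Agent.TH339.MP Pool.Agent.H439.LS Pool.Agent.H439.SP
  Pool.Agent.H439.LL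

section
variable {K : Type} [Field K] [NumberField K] {N : ℕ}
variable {P : HeightOneSpectrum (𝓞 K) → ℂ[X]} {w : ℝ}

/-- the finite Euler product with prescribed values at the primes -/
noncomputable def EU (P : HeightOneSpectrum (𝓞 K) → ℂ[X]) (u : ℕ → ℂ) (s : ℂ) (y : ℝ) : ℂ :=
  ∏ v ∈ Vy K y, ((P v).eval (u (pr v : Nat.Primes) ^ dg v * ((nm v : ℕ) : ℂ) ^ (-s)))⁻¹

lemma EP_eq_EU {g : ℕ → ℂ} (hg : PM g) (s : ℂ) (y : ℝ) : EP P g s y = EU P g s y := by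
  unfold EP EU
  apply prod_congr rfl
  intro v _
  rw [← hg.pow _ (pr v).2, ← nm_eq]

lemma EU_congr {Y : ℕ} {u u' : ℕ → ℂ} (h : ∀ p ∈ DY Y, u p = u' p) (s : ℂ) :
    EU P u s (Y : ℝ) = EU P u' s Y := by
  unfold EU
  apply prod_congr rfl
  intro v hv
  rw [h _ (pr_mem_DY hv)]

/-- the values at the primes attached to a pattern -/
noncomputable def exs (Y : ℕ) (σ : DY Y → ℤ) (t : ℝ) (p : ℕ) : ℂ :=
  (if h : p ∈ DY Y then ((σ ⟨p, h⟩ : ℤ) : ℂ) else 0) * ph (-t) p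

lemma EP_qg {Y : ℕ} (m : ℤ) (t : ℝ) (s : ℂ) :
    EP P (qg m t) s (Y : ℝ) = EU P (exs Y (fun i => kr m i) t) s Y := by
  rw [EP_eq_EU (pm_qg m t)]
  apply EU_congr
  intro p hp
  unfold qg exs
  rw [dif_pos hp, qc_prime m (mem_filter.1 hp).2]

/-- **Almost all quadratic twists are good.** -/
lemma good_q (hP : HW P N w) {A c : ℝ} (hA : 1 ≤ A) (hc : 0 < c) (hc8 : c < 1 / 8) {θ η : ℝ}
    (hθ : 0 < θ) (hη : 0 < η) :
    ∀ᶠ Y : ℕ in atTop, ∃ X₀ : ℕ, ∀ x : ℕ, X₀ ≤ x → ∀ t : ℝ, |t| ≤ (x : ℝ) ^ A →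
      ∀ ε : ℝ, Real.exp (-(x : ℝ) ^ c) ≤ ε → ε ≤ 1 / 2 →
      ∀ B : Finset ℤ, B ⊆ SF x → (∀ m ∈ B, ¬ Good P w Y θ (qg m t) ε) →
        (B.card : ℝ) ≤ η * (SF x).card := by
  set M : ℝ := (Module.finrank ℚ K : ℝ) * N + 1 with hM
  have hM0 : 0 < M := by positivity
  filter_upwards [ev_small ((Module.finrank ℚ K : ℝ) * N * c₁) (half_pos hθ),
    ev_div (16 * M ^ 2 / (θ / 2) ^ 2) (half_pos hη), eventually_ge_atTop 2] with Y hY1 hY2 hY3
  obtain ⟨a, h1, h2, h3⟩ := good_of_PG hP (by omega : 1 ≤ Y)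
  obtain ⟨X₁, hX₁⟩ := q_tail (δ := 8 * c) (A := A) (M := M) (θ := θ / 2) (by linarith) (by linarith)
    hA hM0 (half_pos hθ) hY3
  have hpow : ∀ᶠ x : ℕ in atTop, (x : ℝ) ^ (8 * c) ≤ η / 2 * x := by
    have h4 : Tendsto (fun x : ℕ => (x : ℝ) ^ (-(1 - 8 * c))) atTop (𝓝 0) :=
      (tendsto_rpow_neg_atTop (by linarith)).comp tendsto_natCast_atTop_atTop
    filter_upwards [h4.eventually (gt_mem_nhds (half_pos hη)), eventually_gt_atTop 0] with x hx hx0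
    have hx0' : (0 : ℝ) < x := by exact_mod_cast hx0
    have h5 : (x : ℝ) ^ (8 * c) = (x : ℝ) ^ (-(1 - 8 * c)) * x := by
      conv_rhs => rw [← Real.rpow_one (x : ℝ), ← Real.rpow_mul hx0'.le]
      rw [← Real.rpow_add hx0']
      congr 1
      ring
    rw [h5]
    exact mul_le_mul_of_nonneg_right hx.le hx0'.le
  obtain ⟨X₂, hX₂⟩ := eventually_atTop.1 (hpow.and card_SF_ge)
  refine ⟨max X₁ X₂, fun x hx t ht ε hε0 hε1 B hBS hB => ?_⟩
  have hε : 0 < ε := lt_of_lt_of_le (Real.exp_pos _) hε0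
  have h4 := hX₁ x ((le_max_left _ _).trans hx) t ht ε (by
    rw [show 8 * c / 8 = c by ring]; exact hε0) hε1 a h1 h2 B hBS (fun m hm => by
      by_contra hcon
      rw [not_le] at hcon
      exact hB m hm (h3 _ ε θ (pm_qg m t) hε hY1 hcon))
  obtain ⟨h5, h6⟩ := hX₂ x ((le_max_right _ _).trans hx)
  have hY0 : (0 : ℝ) < Y := by exact_mod_cast (by omega : 0 < Y)
  have h7 : 16 * M ^ 2 / (Y * (θ / 2) ^ 2) ≤ η / 2 := by
    refine le_trans (le_of_eq ?_) hY2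
    field_simp
  have h8 : (x : ℝ) * (16 * M ^ 2 / (Y * (θ / 2) ^ 2)) ≤ x * (η / 2) :=
    mul_le_mul_of_nonneg_left h7 (Nat.cast_nonneg _)
  have h9 : η * (x : ℝ) ≤ η * (SF x).card := mul_le_mul_of_nonneg_left h6 hη.le
  linarith

lemma fam_close (hP : HW P N w) {A c : ℝ} (hA : 1 ≤ A) (hc : 0 < c) (hc8 : c < 1 / 8)
    {f : ℂ → ℝ} (hf : Continuous f) {D : ℝ} (hD : ∀ z, |f z| ≤ D) {η : ℝ} (hη : 0 < η) :
    ∀ᶠ Y : ℕ in atTop, ∃ X₀ : ℕ, ∀ x : ℕ, X₀ ≤ x → ∀ t : ℝ, |t| ≤ (x : ℝ) ^ A →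
      ∀ ε : ℝ, Real.exp (-(x : ℝ) ^ c) ≤ ε → ε ≤ 1 / 2 →
        |((SF x).card : ℝ)⁻¹ * ∑ m ∈ SF x, f (LG P (qg m t) (1 + (w : ℂ) / 2 + (ε : ℂ))) -
          ((SF x).card : ℝ)⁻¹ * ∑ m ∈ SF x, f (EP P (qg m t) (1 + (w : ℂ) / 2 + (ε : ℂ)) Y)| ≤ η := by
  classical
  have hD0 : 0 ≤ D := (abs_nonneg _).trans (hD 0)
  set η₁ : ℝ := η / (1 + 4 * D) with hη₁
  have hη₁0 : 0 < η₁ := by positivity
  have hη₁e : η₁ * (1 + 4 * D) = η := by
    rw [hη₁]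
    field_simp
  obtain ⟨Y₁, X₁, hX₁⟩ := (good_q hP hA hc hc8 one_pos hη₁0).exists
  obtain ⟨θ, hθ, hclose⟩ := close hP hf hη₁0 Y₁
  filter_upwards [good_q hP hA hc hc8 hθ hη₁0] with Y₂ hY₂
  obtain ⟨X₂, hX₂⟩ := hY₂
  obtain ⟨X₃, hX₃⟩ := eventually_atTop.1 card_SF_ge
  refine ⟨max (max X₁ X₂) (max X₃ 1), fun x hx t ht ε hε0 hε1 => ?_⟩
  have hx1 : X₁ ≤ x := ((le_max_left _ _).trans (le_max_left _ _)).trans hx
  have hx2 : X₂ ≤ x := ((le_max_right _ _).trans (le_max_left _ _)).trans hx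
  have hx3 : X₃ ≤ x := ((le_max_left _ _).trans (le_max_right _ _)).trans hx
  have hx4 : 1 ≤ x := ((le_max_right _ _).trans (le_max_right _ _)).trans hx
  have hε : 0 < ε := lt_of_lt_of_le (Real.exp_pos _) hε0
  have hcard : (0 : ℝ) < (SF x).card :=
    lt_of_lt_of_le (by exact_mod_cast hx4 : (0 : ℝ) < x) (hX₃ x hx3)
  set s : ℂ := 1 + (w : ℂ) / 2 + (ε : ℂ) with hs
  set B₁ : Finset ℤ := (SF x).filter fun m => ¬ Good P w Y₁ 1 (qg m t) ε with hB₁d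
  set B₂ : Finset ℤ := (SF x).filter fun m => ¬ Good P w Y₂ θ (qg m t) ε with hB₂d
  have hB₁ := hX₁ x hx1 t ht ε hε0 hε1 B₁ (filter_subset _ _) (fun m hm => (mem_filter.1 hm).2)
  have hB₂ := hX₂ x hx2 t ht ε hε0 hε1 B₂ (filter_subset _ _) (fun m hm => (mem_filter.1 hm).2)
  have h1 : ∀ m ∈ SF x, |f (LG P (qg m t) s) - f (EP P (qg m t) s Y₂)| ≤
      η₁ + ((if m ∈ B₁ then 2 * D else 0) + (if m ∈ B₂ then 2 * D else 0)) := by
    intro m hm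
    have h2 : |f (LG P (qg m t) s) - f (EP P (qg m t) s Y₂)| ≤ 2 * D := by
      refine (abs_sub _ _).trans ?_
      linarith [hD (LG P (qg m t) s), hD (EP P (qg m t) s Y₂)]
    by_cases hb1 : m ∈ B₁
    · rw [if_pos hb1]
      split_ifs <;> linarith
    · by_cases hb2 : m ∈ B₂
      · rw [if_neg hb1, if_pos hb2]
        linarith
      · rw [if_neg hb1, if_neg hb2]
        have h3 : Good P w Y₁ 1 (qg m t) ε := by
          by_contra hcon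
          exact hb1 (mem_filter.2 ⟨hm, hcon⟩)
        have h4 : Good P w Y₂ θ (qg m t) ε := by
          by_contra hcon
          exact hb2 (mem_filter.2 ⟨hm, hcon⟩)
        have := hclose Y₂ _ ε (pm_qg m t) hε.le h3 h4
        linarith
  rw [← mul_sub, ← sum_sub_distrib, abs_mul, abs_of_pos (by positivity : (0 : ℝ) < ((SF x).card : ℝ)⁻¹)]
  have h5 : |∑ m ∈ SF x, (f (LG P (qg m t) s) - f (EP P (qg m t) s Y₂))| ≤ (SF x).card * η := by
    refine (abs_sum_le_sum_abs _ _).trans ((sum_le_sum h1).trans ?_)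
    rw [sum_add_distrib, sum_add_distrib, sum_const, nsmul_eq_mul,
      ← sum_filter, ← sum_filter, sum_const, sum_const, nsmul_eq_mul, nsmul_eq_mul]
    have h6 : ((SF x).filter fun m => m ∈ B₁) = B₁ := by
      ext m
      rw [mem_filter]
      exact ⟨fun h => h.2, fun h => ⟨(mem_filter.1 h).1, h⟩⟩
    have h7 : ((SF x).filter fun m => m ∈ B₂) = B₂ := by
      ext m
      rw [mem_filter]
      exact ⟨fun h => h.2, fun h => ⟨(mem_filter.1 h).1, h⟩⟩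
    rw [h6, h7]
    have h8 : (B₁.card : ℝ) * (2 * D) ≤ (η₁ * (SF x).card) * (2 * D) :=
      mul_le_mul_of_nonneg_right hB₁ (by positivity)
    have h9 : (B₂.card : ℝ) * (2 * D) ≤ (η₁ * (SF x).card) * (2 * D) :=
      mul_le_mul_of_nonneg_right hB₂ (by positivity)
    rw [← hη₁e]
    nlinarith
  calc _ ≤ ((SF x).card : ℝ)⁻¹ * ((SF x).card * η) := mul_le_mul_of_nonneg_left h5 (by positivity)
    _ = η := by rw [← mul_assoc, inv_mul_cancel₀ hcard.ne', one_mul]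

section
variable {Ω : Type} [MeasurableSpace Ω] {μ : Measure Ω} [IsProbabilityMeasure μ] {X : ℕ → Ω → ℤ}

lemma EP_qX (h : Rad μ X) {Y : ℕ} (t : ℝ) (ω : Ω) (s : ℂ) :
    EP P (qX X t ω) s (Y : ℝ) = EU P (exs Y (pX Y X ω) t) s Y := by
  rw [EP_eq_EU (pm_qX h t ω)]
  apply EU_congr
  intro p hp
  unfold qX exs pX
  rw [dif_pos hp]

lemma Rad.measurable_pX (h : Rad μ X) (Y : ℕ) : Measurable (pX Y X) := by
  rw [measurable_pi_iff]
  intro i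
  exact h.meas ⟨i, prime_DY i⟩

lemma measurable_EPq (h : Rad μ X) (t : ℝ) (Y : ℕ) (s : ℂ) :
    Measurable fun ω => EP P (qX X t ω) s (Y : ℝ) := by
  simp_rw [EP_qX h]
  exact (measurable_of_countable fun σ : DY Y → ℤ => EU P (exs Y σ t) s (Y : ℝ)).comp
    (h.measurable_pX Y)

lemma measurable_LGq (hP : HW P N w) (h : Rad μ X) (t : ℝ) {ε : ℝ} (hε : 0 < ε) :
    Measurable fun ω => LG P (qX X t ω) (1 + (w : ℂ) / 2 + (ε : ℂ)) := by
  apply measurable_of_tendsto_metrizable (fun Y => measurable_EPq (P := P) (μ := μ) h t Y _)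
  rw [tendsto_pi_nhds]
  intro ω
  exact tendsto_EP hP (pm_qX h t ω) hε

end

/-- **Almost all random functions are good.** -/
lemma good_rad (hP : HW P N w) {θ η : ℝ} (hθ : 0 < θ) (hη : 0 < η) :
    ∀ᶠ Y : ℕ in atTop, ∀ (Ω : Type) [MeasurableSpace Ω] (μ : Measure Ω) [IsProbabilityMeasure μ]
      (X : ℕ → Ω → ℤ), Rad μ X → ∀ (t ε : ℝ), 0 < ε →
        μ.real {ω | ¬ Good P w Y θ (qX X t ω) ε} ≤ η := by
  set M : ℝ := (Module.finrank ℚ K : ℝ) * N + 1 with hM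
  have hM0 : 0 < M := by positivity
  filter_upwards [ev_small ((Module.finrank ℚ K : ℝ) * N * c₁) (half_pos hθ),
    ev_div (4 * M ^ 2 / (θ / 2) ^ 2) hη, eventually_ge_atTop 1] with Y hY1 hY2 hY3
  intro Ω _ μ _ X hX t ε hε
  obtain ⟨a, h1, h2, h3⟩ := good_of_PG hP hY3
  have h4 := rad_tail hX hM0 (half_pos hθ) hY3 t hε a h1 h2
  have hY0 : (0 : ℝ) < Y := by exact_mod_cast hY3
  have h6 : 4 * M ^ 2 / (Y * (θ / 2) ^ 2) ≤ η := by
    refine le_trans (le_of_eq ?_) hY2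
    field_simp
  refine le_trans (measureReal_mono ?_) (h4.trans h6)
  intro ω hω
  change θ / 2 ≤ ‖PG a (qX X t ω) (1 + (ε : ℂ))‖
  by_contra hcon
  rw [not_le] at hcon
  exact hω (h3 _ ε θ (pm_qX hX t ω) hε hY1 hcon)

lemma rad_close (hP : HW P N w) {f : ℂ → ℝ} (hf : Continuous f) {D : ℝ} (hD : ∀ z, |f z| ≤ D)
    {η : ℝ} (hη : 0 < η) :
    ∀ᶠ Y : ℕ in atTop, ∀ (Ω : Type) [MeasurableSpace Ω] (μ : Measure Ω) [IsProbabilityMeasure μ]
      (X : ℕ → Ω → ℤ), Rad μ X → ∀ (t ε : ℝ), 0 < ε →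
        |∫ ω, f (EP P (qX X t ω) (1 + (w : ℂ) / 2 + (ε : ℂ)) Y) ∂μ -
          ∫ ω, f (LG P (qX X t ω) (1 + (w : ℂ) / 2 + (ε : ℂ))) ∂μ| ≤ η := by
  classical
  have hD0 : 0 ≤ D := (abs_nonneg _).trans (hD 0)
  set η₁ : ℝ := η / (1 + 4 * D) with hη₁
  have hη₁0 : 0 < η₁ := by positivity
  have hη₁e : η₁ * (1 + 4 * D) = η := by
    rw [hη₁]
    field_simp
  obtain ⟨Y₁, hX₁⟩ := (good_rad hP one_pos hη₁0).exists
  obtain ⟨θ, hθ, hclose⟩ := close hP hf hη₁0 Y₁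
  filter_upwards [good_rad hP hθ hη₁0] with Y₂ hX₂
  intro Ω _ μ _ X hX t ε hε
  set s : ℂ := 1 + (w : ℂ) / 2 + (ε : ℂ) with hs
  have hmL := measurable_LGq (μ := μ) hP hX t hε
  have hmE := measurable_EPq (P := P) (μ := μ) hX t Y₂ s
  have hbd : ∀ u : Ω → ℂ, Measurable u → Integrable (fun ω => f (u ω)) μ := by
    intro u hu
    refine Integrable.of_bound (hf.measurable.comp hu).aestronglyMeasurable D ?_
    exact Eventually.of_forall fun ω => hD _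
  rw [← integral_sub (hbd _ hmE) (hbd _ hmL)]
  set u : Ω → ℝ := fun ω => f (EP P (qX X t ω) s Y₂) - f (LG P (qX X t ω) s) with hu
  have hum : Measurable u := (hf.measurable.comp hmE).sub (hf.measurable.comp hmL)
  set E : Set Ω := {ω | η₁ < |u ω|} with hE
  have hEm : MeasurableSet E := measurableSet_lt measurable_const hum.abs
  have hEsub : E ⊆ {ω | ¬ Good P w Y₁ 1 (qX X t ω) ε} ∪ {ω | ¬ Good P w Y₂ θ (qX X t ω) ε} := by
    intro ω hω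
    by_contra hcon
    rw [Set.mem_union, not_or] at hcon
    have h3 : Good P w Y₁ 1 (qX X t ω) ε := not_not.1 hcon.1
    have h4 : Good P w Y₂ θ (qX X t ω) ε := not_not.1 hcon.2
    have h5 := hclose Y₂ _ ε (pm_qX hX t ω) hε.le h3 h4
    have h6 : η₁ < |u ω| := hω
    rw [abs_sub_comm] at h5
    exact absurd h6 (not_lt.2 h5)
  have hEμ : μ.real E ≤ 2 * η₁ := by
    refine (measureReal_mono hEsub).trans ((measureReal_union_le _ _).trans ?_)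
    have := hX₁ Ω μ X hX t ε hε
    have := hX₂ Ω μ X hX t ε hε
    linarith
  have h7 : ∀ ω, |u ω| ≤ η₁ + E.indicator (fun _ => 2 * D) ω := by
    intro ω
    by_cases hω : ω ∈ E
    · rw [Set.indicator_of_mem hω]
      have : |u ω| ≤ 2 * D := by
        refine (abs_sub _ _).trans ?_
        linarith [hD (LG P (qX X t ω) s), hD (EP P (qX X t ω) s Y₂)]
      linarith
    · rw [Set.indicator_of_notMem hω, add_zero]
      exact not_lt.1 hω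
  have hintE : Integrable (E.indicator fun _ => 2 * D) μ := (integrable_const _).indicator hEm
  calc |∫ ω, u ω ∂μ| ≤ ∫ ω, |u ω| ∂μ := abs_integral_le_integral_abs
    _ ≤ ∫ ω, (η₁ + E.indicator (fun _ => 2 * D) ω) ∂μ :=
        integral_mono_of_nonneg (Eventually.of_forall fun _ => abs_nonneg _)
          ((integrable_const _).add hintE) (Eventually.of_forall h7)
    _ = η₁ + μ.real E * (2 * D) := by
        rw [integral_add (integrable_const _) hintE, integral_const, integral_indicator_const _ hEm]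
        simp
    _ ≤ η₁ + (2 * η₁) * (2 * D) := by
        have := mul_le_mul_of_nonneg_right hEμ (by positivity : (0 : ℝ) ≤ 2 * D)
        linarith
    _ = η := by rw [← hη₁e]; ring

/-- **The limit law for the quadratic twists.** -/
theorem limit_law_q (hP : HW P N w) {A c : ℝ} (hA : 1 ≤ A) (hc : 0 < c) (hc8 : c < 1 / 8)
    {f : ℂ → ℝ} (hf : Continuous f) {D : ℝ} (hD : ∀ z, |f z| ≤ D) {η : ℝ} (hη : 0 < η) :
    ∃ X₀ : ℕ, ∀ x : ℕ, X₀ ≤ x → ∀ t : ℝ, |t| ≤ (x : ℝ) ^ A →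
      ∀ ε : ℝ, Real.exp (-(x : ℝ) ^ c) ≤ ε → ε ≤ 1 / 2 →
      ∀ (Ω : Type) [MeasurableSpace Ω] (μ : Measure Ω) [IsProbabilityMeasure μ] (X : ℕ → Ω → ℤ),
        Rad μ X →
        |((SF x).card : ℝ)⁻¹ * ∑ m ∈ SF x, f (LG P (qg m t) (1 + (w : ℂ) / 2 + (ε : ℂ))) -
          ∫ ω, f (LG P (qX X t ω) (1 + (w : ℂ) / 2 + (ε : ℂ))) ∂μ| ≤ η := by
  have hD0 : 0 ≤ D := (abs_nonneg _).trans (hD 0)
  have hη3 : 0 < η / 3 := by positivity
  obtain ⟨Y, ⟨X₁, hX₁⟩, hY⟩ := ((fam_close hP hA hc hc8 hf hD hη3).and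
    (rad_close hP hf hD hη3)).exists
  obtain ⟨X₂, hX₂⟩ := eventually_atTop.1 (compare Y hD0 hη3)
  refine ⟨max X₁ X₂, fun x hx t ht ε hε0 hε1 Ω _ μ _ X hX => ?_⟩
  have hε : 0 < ε := lt_of_lt_of_le (Real.exp_pos _) hε0
  have h1 := hX₁ x ((le_max_left _ _).trans hx) t ht ε hε0 hε1
  have h2 := hY Ω μ X hX t ε hε
  set s : ℂ := 1 + (w : ℂ) / 2 + (ε : ℂ) with hs
  have h3 := hX₂ x ((le_max_right _ _).trans hx)
    (fun σ => f (EU P (exs Y σ t) s (Y : ℝ))) (fun σ => hD _) Ω μ X hX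
  have h4 : ∑ m ∈ SF x, f (EU P (exs Y (fun i => kr m i) t) s (Y : ℝ)) =
      ∑ m ∈ SF x, f (EP P (qg m t) s (Y : ℝ)) := by
    apply sum_congr rfl
    intro m _
    rw [EP_qg]
  have h5 : ∫ ω, f (EU P (exs Y (pX Y X ω) t) s (Y : ℝ)) ∂μ =
      ∫ ω, f (EP P (qX X t ω) s (Y : ℝ)) ∂μ := by
    congr 1
    funext ω
    rw [EP_qX hX]
  rw [h4, h5] at h3
  have e1 := abs_sub_le (((SF x).card : ℝ)⁻¹ * ∑ m ∈ SF x, f (LG P (qg m t) s))
    (((SF x).card : ℝ)⁻¹ * ∑ m ∈ SF x, f (EP P (qg m t) s Y))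
    (∫ ω, f (LG P (qX X t ω) s) ∂μ)
  have e2 := abs_sub_le (((SF x).card : ℝ)⁻¹ * ∑ m ∈ SF x, f (EP P (qg m t) s Y))
    (∫ ω, f (EP P (qX X t ω) s Y) ∂μ) (∫ ω, f (LG P (qX X t ω) s) ∂μ)
  linarith

lemma log_of_good (hP : HW P N w) {Y : ℕ} {g : ℕ → ℂ} (hg : PM g) {ε : ℝ} (hε : 0 < ε)
    (h : Good P w Y 1 g ε) :
    |Real.log ‖LG P g (1 + (w : ℂ) / 2 + (ε : ℂ))‖| ≤ Real.log (BB K N (Y : ℝ)) + 1 ∧
      LG P g (1 + (w : ℂ) / 2 + (ε : ℂ)) ≠ 0 := by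
  have hB1 := one_le_BB (K := K) (N := N) (Y : ℝ)
  obtain ⟨Λ, hΛ, e⟩ := h
  obtain ⟨h2, h3⟩ := EP_bounds hP hg (s := 1 + (w : ℂ) / 2 + (ε : ℂ))
    (by rw [re_s]; linarith) (Y : ℝ)
  have h4 : 0 < ‖EP P g (1 + (w : ℂ) / 2 + (ε : ℂ)) Y‖ :=
    lt_of_lt_of_le (by positivity) h3
  constructor
  · rw [e, norm_mul, Real.log_mul h4.ne' (by rw [Complex.norm_exp]; exact (Real.exp_pos _).ne'),
      Complex.norm_exp, Real.log_exp]
    have h5 := Real.log_le_log h4 h2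
    have h6 := Real.log_le_log (by positivity) h3
    rw [Real.log_inv] at h6
    have h7 := abs_le.1 ((Complex.abs_re_le_norm Λ).trans hΛ)
    rw [abs_le]
    constructor <;> linarith
  · rw [e]
    exact mul_ne_zero (norm_pos_iff.1 h4) (Complex.exp_ne_zero _)

/-- **Tightness.** -/
theorem tight_q (hP : HW P N w) {A c : ℝ} (hA : 1 ≤ A) (hc : 0 < c) (hc8 : c < 1 / 8)
    {η : ℝ} (hη : 0 < η) :
    ∃ (B : ℝ) (X₀ : ℕ), ∀ x : ℕ, X₀ ≤ x → ∀ t : ℝ, |t| ≤ (x : ℝ) ^ A →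
      ∀ ε : ℝ, Real.exp (-(x : ℝ) ^ c) ≤ ε → ε ≤ 1 / 2 →
      ∃ E ⊆ SF x, (E.card : ℝ) ≤ η * (SF x).card ∧ ∀ m ∈ SF x, m ∉ E →
        |Real.log ‖LG P (qg m t) (1 + (w : ℂ) / 2 + (ε : ℂ))‖| ≤ B := by
  classical
  obtain ⟨Y₁, X₁, hX₁⟩ := (good_q hP hA hc hc8 one_pos hη).exists
  refine ⟨Real.log (BB K N (Y₁ : ℝ)) + 1, X₁, fun x hx t ht ε hε0 hε1 => ?_⟩
  refine ⟨(SF x).filter fun m => ¬ Good P w Y₁ 1 (qg m t) ε, filter_subset _ _,
    hX₁ x hx t ht ε hε0 hε1 _ (filter_subset _ _) (fun m hm => (mem_filter.1 hm).2),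
    fun m hm1 hm2 => ?_⟩
  have hε : 0 < ε := lt_of_lt_of_le (Real.exp_pos _) hε0
  have h1 : Good P w Y₁ 1 (qg m t) ε := by
    by_contra hcon
    exact hm2 (mem_filter.2 ⟨hm1, hcon⟩)
  exact (log_of_good hP (pm_qg m t) hε h1).1

end

end Pool.Agent.H439.QD
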