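import Pool.Agent.H439.QD.Char

/-!
# Sums over the integers of absolute value at most `x`
-/

set_option autoImplicit false

namespace Pool.Agent.H439.QD

open Finset Complex ComplexConjugate Pool.Agent.H439.LS Pool.Agent.H439.SP Pool.Agent.H439.LL
  Pool.Agent.A856.QF

/-- the integers of absolute value at most `x` -/
noncomputable def IX (x : ℕ) : Finset ℤ := Icc (-(x : ℤ)) x

lemma sum_zero_of_unit {Q : ℕ} [NeZero Q] (h : ZMod Q → ℝ) (u : (ZMod Q)ˣ)
    (hu : ∀ a, h (u * a) = -h a) : ∑ a, h a = 0 := by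
  have h1 : ∑ a, h a = ∑ a, h (u * a) := by
    refine (Fintype.sum_bijective (fun a => (u : ZMod Q) * a) ?_ _ _ fun _ => rfl).symm
    exact (Units.mulLeft u).bijective
  have h2 : ∑ a, h (u * a) = -∑ a, h a := by
    rw [← sum_neg_distrib]
    exact sum_congr rfl fun a _ => hu a
  linarith

lemma sum_range_zmod {Q : ℕ} [NeZero Q] (g : ZMod Q → ℝ) :
    ∑ j ∈ range Q, g (j : ZMod Q) = ∑ a, g a := by
  refine sum_bij (fun j _ => (j : ZMod Q)) (fun _ _ => mem_univ _) ?_ ?_ (fun _ _ => rfl)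
  · intro a ha b hb hab
    rw [mem_range] at ha hb
    have := (ZMod.natCast_eq_natCast_iff' a b Q).1 hab
    rwa [Nat.mod_eq_of_lt ha, Nat.mod_eq_of_lt hb] at this
  · intro a _
    exact ⟨a.val, mem_range.2 (ZMod.val_lt a), ZMod.natCast_zmod_val a⟩

lemma sum_consec {Q : ℕ} [NeZero Q] (h : ZMod Q → ℝ) (h0 : ∑ a, h a = 0) (hb : ∀ a, |h a| ≤ 1)
    (L : ℕ) : ∀ a : ZMod Q, |∑ j ∈ range L, h (a + (j : ZMod Q))| ≤ Q := by
  have hper : ∀ a : ZMod Q, ∑ j ∈ range Q, h (a + (j : ZMod Q)) = 0 := by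
    intro a
    rw [sum_range_zmod (fun b => h (a + b))]
    have : ∑ b, h (a + b) = ∑ b, h b :=
      Fintype.sum_bijective (fun b => a + b) (Equiv.addLeft a).bijective _ _ fun _ => rfl
    rw [this, h0]
  induction L using Nat.strong_induction_on with
  | _ L ih =>
    intro a
    rcases lt_or_ge L Q with hL | hL
    · refine (abs_sum_le_sum_abs _ _).trans ?_
      refine (sum_le_sum fun j _ => hb _).trans ?_
      rw [sum_const, card_range, nsmul_eq_mul, mul_one]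
      exact_mod_cast hL.le
    · obtain ⟨M, rfl⟩ : ∃ M, L = Q + M := ⟨L - Q, by omega⟩
      have hQ : 0 < Q := Nat.pos_of_ne_zero (NeZero.ne Q)
      rw [sum_range_add, hper, zero_add]
      have h2 := ih M (by omega) a
      refine le_trans (le_of_eq ?_) h2
      congr 1
      apply sum_congr rfl
      intro j _
      congr 1
      push_cast
      rw [ZMod.natCast_self]
      ring

lemma sum_int_le {Q : ℕ} [NeZero Q] (h : ZMod Q → ℝ) (h0 : ∑ a, h a = 0) (hb : ∀ a, |h a| ≤ 1)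
    (x : ℕ) : |∑ m ∈ IX x, h ((m : ℤ) : ZMod Q)| ≤ Q := by
  have h1 : ∑ m ∈ IX x, h ((m : ℤ) : ZMod Q) =
      ∑ j ∈ range (2 * x + 1), h ((-(x : ZMod Q)) + (j : ZMod Q)) := by
    refine sum_bij' (fun m _ => (m + x).toNat) (fun j _ => (j : ℤ) - x) ?_ ?_ ?_ ?_ ?_
    · intro m hm
      unfold IX at hm
      rw [mem_Icc] at hm
      rw [mem_range]
      omega
    · intro j hj
      unfold IX
      rw [mem_range] at hj
      rw [mem_Icc]
      omega
    · intro m hm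
      unfold IX at hm
      rw [mem_Icc] at hm
      omega
    · intro j _
      simp
    · intro m hm
      unfold IX at hm
      rw [mem_Icc] at hm
      have h2 : ((m + x).toNat : ℤ) = m + x := Int.toNat_of_nonneg (by omega)
      congr 1
      have h3 : (((m + x).toNat : ℕ) : ZMod Q) = ((((m + x).toNat : ℕ) : ℤ) : ZMod Q) := by
        rw [Int.cast_natCast]
      rw [h3, h2]
      push_cast
      ring
  rw [h1]
  exact sum_consec h h0 hb _ _

lemma card_IX (x : ℕ) : (IX x).card = 2 * x + 1 := by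
  unfold IX
  rw [Int.card_Icc]
  omega

/-- the Jacobi symbol on the residue classes -/
def jz (n : ℕ) (a : ZMod n) : ℝ := ((jacobiSym (a.val : ℤ) n : ℤ) : ℝ)

lemma jz_cast {n : ℕ} [NeZero n] (m : ℤ) : jz n (m : ZMod n) = ((jacobiSym m n : ℤ) : ℝ) := by
  unfold jz
  rw [jacobiSym.mod_left m n, ← ZMod.val_intCast]

lemma abs_jz (n : ℕ) (a : ZMod n) : |jz n a| ≤ 1 := by
  unfold jz
  rcases jacobiSym.trichotomy (a.val : ℤ) n with h | h | h <;> rw [h] <;> simp

/-- sums of Jacobi symbols, the modulus is divisible by a prime exactly once -/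
lemma jacobi_sum {p r : ℕ} (hp : p.Prime) (hp2 : p ≠ 2) (hr : r ≠ 0) (hpr : p.Coprime r)
    (x : ℕ) : |∑ m ∈ IX x, ((jacobiSym m (p * r) : ℤ) : ℝ)| ≤ (p * r : ℕ) := by
  have hFact := Fact.mk hp
  have hp0 : NeZero p := ⟨hp.ne_zero⟩
  have hr0 : NeZero r := ⟨hr⟩
  have hNZ : NeZero (p * r) := ⟨mul_ne_zero hp.ne_zero hr⟩
  obtain ⟨c, hc⟩ : ∃ c : ZMod p, quadraticChar (ZMod p) c = -1 := by
    apply quadraticChar_exists_neg_one
    rw [ZMod.ringChar_zmod_n]
    exact hp2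
  obtain ⟨n, hn1, hn2⟩ := exists_crt hpr c.val 1
  have hJp : jacobiSym (n : ℤ) p = -1 := by
    rw [← jacobiSym.legendreSym.to_jacobiSym, legendreSym]
    push_cast
    have : (n : ZMod p) = c := by
      have h3 := (ZMod.natCast_eq_natCast_iff n c.val p).mpr hn1
      rw [h3, ZMod.natCast_zmod_val]
    rw [this]
    exact hc
  have hJr : jacobiSym (n : ℤ) r = 1 := by
    have h1 : jacobiSym (n : ℤ) r = jacobiSym (1 : ℤ) r := by
      rw [jacobiSym.mod_left (n : ℤ) r, jacobiSym.mod_left (1 : ℤ) r]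
      congr 1
      exact_mod_cast hn2
    rw [h1, jacobiSym.one_left]
  have hJ : jacobiSym (n : ℤ) (p * r) = -1 := by
    rw [jacobiSym.mul_right, hJp, hJr]
    norm_num
  have hcop : n.Coprime (p * r) := by
    by_contra hcon
    have : jacobiSym (n : ℤ) (p * r) = 0 := by
      rw [jacobiSym.eq_zero_iff_not_coprime, Int.gcd_natCast_natCast]
      exact hcon
    rw [this] at hJ
    norm_num at hJ
  have h0 : ∑ a, jz (p * r) a = 0 := by
    apply sum_zero_of_unit _ (ZMod.unitOfCoprime n hcop)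
    intro a
    have h1 : ((ZMod.unitOfCoprime n hcop : (ZMod (p * r))ˣ) : ZMod (p * r)) * a =
        (((n : ℤ) * (a.val : ℤ) : ℤ) : ZMod (p * r)) := by
      push_cast
      rw [ZMod.natCast_zmod_val, ZMod.coe_unitOfCoprime]
    have h2 : a = ((a.val : ℤ) : ZMod (p * r)) := by
      rw [Int.cast_natCast, ZMod.natCast_zmod_val]
    rw [h1, jz_cast, jacobiSym.mul_left, hJ]
    conv_rhs => rw [h2, jz_cast]
    push_cast
    ring
  have h1 := sum_int_le (jz (p * r)) h0 (abs_jz _) x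
  simp_rw [jz_cast] at h1
  exact h1

/-- **The mean square over all integers.** -/
theorem mean_sq_int (S : Finset ℕ) (hS : ∀ p ∈ S, p.Prime ∧ p ≠ 2) (b : ℕ → ℂ) (x : ℕ) :
    ∑ m ∈ IX x, ‖∑ p ∈ S, b p * ((kr m p : ℤ) : ℂ)‖ ^ 2 ≤
      (2 * x + 1) * ∑ p ∈ S, ‖b p‖ ^ 2 + (∑ p ∈ S, p * ‖b p‖) ^ 2 := by
  have h1 : ((∑ m ∈ IX x, ‖∑ p ∈ S, b p * ((kr m p : ℤ) : ℂ)‖ ^ 2 : ℝ) : ℂ) =
      ∑ p ∈ S, ∑ r ∈ S, conj (b p) * b r *
        ((∑ m ∈ IX x, ((jacobiSym m (p * r) : ℤ) : ℝ) : ℝ) : ℂ) := by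
    push_cast
    have h2 : ∀ m ∈ IX x, (‖∑ p ∈ S, b p * ((kr m p : ℤ) : ℂ)‖ : ℂ) ^ 2 =
        ∑ p ∈ S, ∑ r ∈ S, conj (b p) * b r * ((jacobiSym m (p * r) : ℤ) : ℂ) := by
      intro m _
      rw [← conj_mul', map_sum, sum_mul_sum]
      apply sum_congr rfl
      intro p hp
      apply sum_congr rfl
      intro r hr
      have hp0 : NeZero p := ⟨(hS p hp).1.ne_zero⟩
      have hr0 : NeZero r := ⟨(hS r hr).1.ne_zero⟩
      rw [map_mul, jacobiSym.mul_right]
      unfold kr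
      rw [if_neg (hS p hp).2, if_neg (hS r hr).2]
      push_cast
      simp only [map_intCast]
      ring
    rw [sum_congr rfl h2, sum_comm]
    apply sum_congr rfl
    intro p _
    rw [sum_comm]
    apply sum_congr rfl
    intro r _
    rw [mul_sum]
  have h2 : ∑ m ∈ IX x, ‖∑ p ∈ S, b p * ((kr m p : ℤ) : ℂ)‖ ^ 2 ≤
      ∑ p ∈ S, ∑ r ∈ S, ‖b p‖ * ‖b r‖ * (if p = r then (2 * x + 1 : ℝ) else p * r) := by
    have h3 : ∑ m ∈ IX x, ‖∑ p ∈ S, b p * ((kr m p : ℤ) : ℂ)‖ ^ 2 =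
        ‖((∑ m ∈ IX x, ‖∑ p ∈ S, b p * ((kr m p : ℤ) : ℂ)‖ ^ 2 : ℝ) : ℂ)‖ := by
      rw [Complex.norm_real, Real.norm_of_nonneg (sum_nonneg fun _ _ => by positivity)]
    rw [h3, h1]
    refine (norm_sum_le _ _).trans (sum_le_sum fun p hp => ?_)
    refine (norm_sum_le _ _).trans (sum_le_sum fun r hr => ?_)
    rw [norm_mul, norm_mul, Complex.norm_conj, Complex.norm_real]
    apply mul_le_mul_of_nonneg_left _ (by positivity)
    rw [Real.norm_eq_abs]
    split_ifs with h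
    · refine (abs_sum_le_sum_abs _ _).trans ?_
      have h4 : ∀ m ∈ IX x, |((jacobiSym m (p * r) : ℤ) : ℝ)| ≤ 1 := by
        intro m _
        rcases jacobiSym.trichotomy m (p * r) with h | h | h <;> rw [h] <;> simp
      refine (sum_le_sum h4).trans ?_
      rw [sum_const, card_IX, nsmul_eq_mul, mul_one]
      push_cast
      exact le_rfl
    · have h4 := jacobi_sum (hS p hp).1 (hS p hp).2 (hS r hr).1.ne_zero
        ((Nat.coprime_primes (hS p hp).1 (hS r hr).1).2 h) x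
      push_cast at h4
      exact h4
  refine h2.trans ?_
  have h3 : ∀ p ∈ S, ∀ r ∈ S, ‖b p‖ * ‖b r‖ * (if p = r then (2 * x + 1 : ℝ) else p * r) ≤
      (if p = r then (2 * x + 1 : ℝ) * (‖b p‖ * ‖b r‖) else 0) + (p * ‖b p‖) * (r * ‖b r‖) := by
    intro p _ r _
    split_ifs
    · have : 0 ≤ (p * ‖b p‖) * (r * ‖b r‖) := by positivity
      linarith
    · linarith
  refine (sum_le_sum fun p hp => sum_le_sum fun r hr => h3 p hp r hr).trans (le_of_eq ?_)
  simp_rw [sum_add_distrib]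
  congr 1
  · rw [mul_sum]
    apply sum_congr rfl
    intro p hp
    rw [sum_ite_eq, if_pos hp, sq]
  · rw [sq, sum_mul_sum]

end Pool.Agent.H439.QD
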