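import Pool.Agent.H439.QD.Cnt

/-!
# The frequencies of the splitting patterns and the random model
-/

set_option autoImplicit false
set_option linter.unusedSectionVars false
set_option linter.unusedVariables false

namespace Pool.Agent.H439.QD

open Finset Complex ComplexConjugate Filter Topology MeasureTheory ProbabilityTheory
  Pool.Agent.H439.LS Pool.Agent.H439.SP Pool.Agent.H439.LL

/-- the three values -/
def T3 : Finset ℤ := {0, 1, -1}

lemma mem_T3 {v : ℤ} : v ∈ T3 ↔ v = 0 ∨ v = 1 ∨ v = -1 := by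
  unfold T3
  simp

/-- the coefficients of the indicator functions -/
noncomputable def co (s : ℤ) (j : ℕ) : ℝ :=
  if s = 0 then (if j = 0 then 1 else if j = 1 then 0 else -1)
  else (if j = 0 then 0 else if j = 1 then (s : ℝ) / 2 else 1 / 2)

lemma co_indic {s v : ℤ} (hs : s ∈ T3) (hv : v ∈ T3) :
    ∑ j ∈ range 3, co s j * (v : ℝ) ^ j = if v = s then 1 else 0 := by
  rw [mem_T3] at hs hv
  simp only [sum_range_succ, sum_range_zero, co]
  rcases hs with rfl | rfl | rfl <;> rcases hv with rfl | rfl | rfl <;> norm_num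

/-- the probabilities of the three values at a prime -/
noncomputable def pr3 (p : ℕ) (s : ℤ) : ℝ := if s = 0 then 1 - rho p else rho p / 2

lemma co_ee {p : ℕ} {s : ℤ} (hs : s ∈ T3) : ∑ j ∈ range 3, co s j * ee p j = pr3 p s := by
  rw [mem_T3] at hs
  simp only [sum_range_succ, sum_range_zero, co, ee, pr3]
  rcases hs with rfl | rfl | rfl <;> norm_num <;> ring

lemma kr_mem (m : ℤ) (p : ℕ) : kr m p ∈ T3 := mem_T3.2 (kr_cases m p)

/-- the patterns -/
def PT (Y : ℕ) : Finset (DY Y → ℤ) := Fintype.piFinset fun _ => T3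

lemma mem_PT {Y : ℕ} {σ : DY Y → ℤ} : σ ∈ PT Y ↔ ∀ i, σ i ∈ T3 := by
  unfold PT
  exact Fintype.mem_piFinset

/-- the frequency of a pattern -/
noncomputable def fr (Y : ℕ) (σ : DY Y → ℤ) (x : ℕ) : ℝ :=
  (((SF x).filter fun m => (fun i : DY Y => kr m i) = σ).card : ℝ) / (SF x).card

theorem fr_tendsto {Y : ℕ} {σ : DY Y → ℤ} (hσ : σ ∈ PT Y) :
    Tendsto (fun x => fr Y σ x) atTop (𝓝 (∏ i : DY Y, pr3 i (σ i))) := by
  have hσ' := mem_PT.1 hσ
  have h1 : ∀ x, fr Y σ x = ∑ k ∈ Fintype.piFinset (fun _ : DY Y => range 3),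
      (∏ i : DY Y, co (σ i) (k i)) * ((∑ m ∈ SF x, mon Y k m) / (SF x).card) := by
    intro x
    unfold fr
    have h2 : (((SF x).filter fun m => (fun i : DY Y => kr m i) = σ).card : ℝ) =
        ∑ m ∈ SF x, ∏ i : DY Y, (if kr m i = σ i then (1 : ℝ) else 0) := by
      rw [card_filter, Nat.cast_sum]
      apply sum_congr rfl
      intro m _
      by_cases h : (fun i : DY Y => kr m i) = σ
      · rw [if_pos h]
        rw [prod_eq_one fun i _ => if_pos (congrFun h i)]
        simp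
      · rw [if_neg h]
        obtain ⟨i, hi⟩ := Function.ne_iff.1 h
        rw [prod_eq_zero (mem_univ i) (if_neg hi)]
        simp
    have h3 : ∀ m ∈ SF x, ∏ i : DY Y, (if kr m i = σ i then (1 : ℝ) else 0) =
        ∑ k ∈ Fintype.piFinset (fun _ : DY Y => range 3), (∏ i : DY Y, co (σ i) (k i)) * mon Y k m := by
      intro m _
      have h4 : ∀ i : DY Y, (if kr m i = σ i then (1 : ℝ) else 0) =
          ∑ j ∈ range 3, co (σ i) j * ((kr m i : ℤ) : ℝ) ^ j := fun i =>
        (co_indic (hσ' i) (kr_mem m i)).symm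
      rw [prod_congr rfl fun i _ => h4 i, prod_univ_sum]
      apply sum_congr rfl
      intro k _
      unfold mon
      rw [prod_mul_distrib]
    rw [h2, sum_congr rfl h3, sum_comm, sum_div]
    apply sum_congr rfl
    intro k _
    rw [← mul_sum, mul_div_assoc]
  have h2 : ∏ i : DY Y, pr3 i (σ i) = ∑ k ∈ Fintype.piFinset (fun _ : DY Y => range 3),
      (∏ i : DY Y, co (σ i) (k i)) * ∏ i : DY Y, ee i (k i) := by
    rw [prod_congr rfl fun (i : DY Y) _ => (co_ee (p := (i : ℕ)) (hσ' i)).symm, prod_univ_sum]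
    apply sum_congr rfl
    intro k _
    rw [prod_mul_distrib]
  rw [h2]
  simp_rw [h1]
  apply tendsto_finsetSum
  intro k hk
  rw [Fintype.mem_piFinset] at hk
  apply Tendsto.const_mul
  exact mon_tendsto k fun i => by have := mem_range.1 (hk i); omega

section
variable {Ω : Type} [MeasurableSpace Ω]

/-- A random completely multiplicative function with independent values `0, 1, -1` at the primes,
with the probabilities `1 - ρ_p, ρ_p/2, ρ_p/2`. -/
structure Rad (μ : Measure Ω) (X : ℕ → Ω → ℤ) : Prop where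
  map_mul : ∀ m n : ℕ, 0 < m → 0 < n → ∀ ω, X (m * n) ω = X m ω * X n ω
  map_one : ∀ ω, X 1 ω = 1
  meas : ∀ p : Nat.Primes, Measurable (X p)
  vals : ∀ (p : Nat.Primes) ω, X p ω = 0 ∨ X p ω = 1 ∨ X p ω = -1
  law_one : ∀ p : Nat.Primes, μ.real {ω | X p ω = 1} = rho p / 2
  law_neg : ∀ p : Nat.Primes, μ.real {ω | X p ω = -1} = rho p / 2
  indep : iIndepFun (fun p : Nat.Primes => X p) μ

variable {μ : Measure Ω} [IsProbabilityMeasure μ] {X : ℕ → Ω → ℤ}

lemma Rad.law_zero (h : Rad μ X) (p : Nat.Primes) : μ.real {ω | X p ω = 0} = 1 - rho p := by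
  have hm : ∀ s : ℤ, MeasurableSet {ω | X p ω = s} := fun s => h.meas p (measurableSet_singleton s)
  have h1 : (Set.univ : Set Ω) = {ω | X p ω = 0} ∪ ({ω | X p ω = 1} ∪ {ω | X p ω = -1}) := by
    ext ω
    simp only [Set.mem_univ, Set.mem_union, Set.mem_ofPred_eq, true_iff]
    exact h.vals p ω
  have h2 : μ.real (Set.univ : Set Ω) = 1 := by simp
  rw [h1, measureReal_union _ ((hm 1).union (hm (-1))), measureReal_union _ (hm (-1)), h.law_one,
    h.law_neg] at h2
  · linarith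
  · rw [Set.disjoint_left]
    intro ω h3 h4
    simp only [Set.mem_ofPred_eq] at h3 h4
    omega
  · rw [Set.disjoint_left]
    intro ω h3 h4
    simp only [Set.mem_ofPred_eq, Set.mem_union] at h3 h4
    omega

lemma Rad.law (h : Rad μ X) (p : Nat.Primes) {s : ℤ} (hs : s ∈ T3) :
    μ.real {ω | X p ω = s} = pr3 p s := by
  rw [mem_T3] at hs
  unfold pr3
  rcases hs with rfl | rfl | rfl
  · rw [if_pos rfl]
    exact h.law_zero p
  · rw [if_neg (by norm_num)]
    exact h.law_one p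
  · rw [if_neg (by norm_num)]
    exact h.law_neg p

/-- the pattern of the random function -/
def pX (Y : ℕ) (X : ℕ → Ω → ℤ) (ω : Ω) : DY Y → ℤ := fun i => X i ω

lemma Rad.mem_PT (h : Rad μ X) (Y : ℕ) (ω : Ω) : pX Y X ω ∈ PT Y := by
  rw [QD.mem_PT]
  intro i
  rw [mem_T3]
  exact h.vals ⟨i, prime_DY i⟩ ω

lemma Rad.measurableSet_pat (h : Rad μ X) (Y : ℕ) (σ : DY Y → ℤ) :
    MeasurableSet {ω | pX Y X ω = σ} := by
  have h1 : {ω | pX Y X ω = σ} = ⋂ i : DY Y, {ω | X i ω = σ i} := by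
    ext ω
    simp only [Set.mem_ofPred_eq, Set.mem_iInter]
    exact funext_iff
  rw [h1]
  exact MeasurableSet.iInter fun i => h.meas ⟨i, prime_DY i⟩ (measurableSet_singleton _)

lemma Rad.pat (h : Rad μ X) {Y : ℕ} {σ : DY Y → ℤ} (hσ : σ ∈ PT Y) :
    μ.real {ω | pX Y X ω = σ} = ∏ i : DY Y, pr3 i (σ i) := by
  rw [QD.mem_PT] at hσ
  have hinj : Function.Injective (fun i : DY Y => (⟨i, prime_DY i⟩ : Nat.Primes)) := fun i j hij =>
    Subtype.ext (congrArg (fun x : Nat.Primes => (x : ℕ)) hij)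
  have h1 := (h.indep.precomp hinj).measure_inter_preimage_eq_mul univ
    (sets := fun i => {σ i}) (fun i _ => measurableSet_singleton _)
  have h2 : {ω | pX Y X ω = σ} = ⋂ i ∈ (univ : Finset (DY Y)), (fun ω => X i ω) ⁻¹' {σ i} := by
    ext ω
    simp only [Set.mem_ofPred_eq, Set.mem_iInter, Set.mem_preimage, Set.mem_singleton_iff,
      Finset.mem_univ, true_implies]
    exact funext_iff
  unfold Measure.real
  rw [h2]
  have h3 : μ (⋂ i ∈ (univ : Finset (DY Y)), (fun ω => X i ω) ⁻¹' {σ i}) =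
      ∏ i : DY Y, μ ((fun ω => X i ω) ⁻¹' {σ i}) := h1
  rw [h3, ENNReal.toReal_prod]
  apply prod_congr rfl
  intro i _
  exact h.law ⟨i, prime_DY i⟩ (hσ i)

lemma Rad.integral_pat (h : Rad μ X) (Y : ℕ) (G : (DY Y → ℤ) → ℝ) :
    ∫ ω, G (pX Y X ω) ∂μ = ∑ σ ∈ PT Y, G σ * ∏ i : DY Y, pr3 i (σ i) := by
  have h1 : ∀ ω, G (pX Y X ω) = ∑ σ ∈ PT Y, Set.indicator {ω | pX Y X ω = σ} (fun _ => G σ) ω := by
    intro ω
    rw [sum_eq_single (pX Y X ω)]
    · rw [Set.indicator_of_mem]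
      exact rfl
    · intro σ _ hσ
      rw [Set.indicator_of_notMem]
      exact fun h => hσ h.symm
    · intro h0
      exact absurd (h.mem_PT Y ω) h0
  simp_rw [h1]
  rw [integral_finsetSum _ fun σ _ => (integrable_const (G σ)).indicator (h.measurableSet_pat Y σ)]
  apply sum_congr rfl
  intro σ hσ
  rw [integral_indicator (h.measurableSet_pat Y σ), setIntegral_const, h.pat hσ, smul_eq_mul,
    mul_comm]

lemma avg_pat (Y : ℕ) (G : (DY Y → ℤ) → ℝ) (x : ℕ) :
    ((SF x).card : ℝ)⁻¹ * ∑ m ∈ SF x, G (fun i => kr m i) = ∑ σ ∈ PT Y, G σ * fr Y σ x := by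
  have h1 : ∀ m ∈ SF x, G (fun i => kr m i) =
      ∑ σ ∈ PT Y, G σ * (if (fun i : DY Y => kr m i) = σ then 1 else 0) := by
    intro m _
    rw [sum_eq_single (fun i : DY Y => kr m i)]
    · rw [if_pos rfl, mul_one]
    · intro σ _ hσ
      rw [if_neg (fun h => hσ h.symm), mul_zero]
    · intro h0
      exact absurd (mem_PT.2 fun i => kr_mem m i) h0
  rw [sum_congr rfl h1, sum_comm, mul_sum]
  apply sum_congr rfl
  intro σ _
  unfold fr
  rw [← mul_sum, card_filter, Nat.cast_sum]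
  have h2 : ∀ m ∈ SF x, (((if (fun i : DY Y => kr m i) = σ then 1 else 0 : ℕ)) : ℝ) =
      if (fun i : DY Y => kr m i) = σ then 1 else 0 := by
    intro m _
    split_ifs <;> simp
  rw [sum_congr rfl h2]
  ring

/-- **Comparison of the family and the random model.** -/
theorem compare (Y : ℕ) {D η : ℝ} (hD : 0 ≤ D) (hη : 0 < η) :
    ∀ᶠ x : ℕ in atTop, ∀ G : (DY Y → ℤ) → ℝ, (∀ σ, |G σ| ≤ D) →
      ∀ (Ω : Type) [MeasurableSpace Ω] (μ : Measure Ω) [IsProbabilityMeasure μ] (X : ℕ → Ω → ℤ),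
      Rad μ X → |((SF x).card : ℝ)⁻¹ * ∑ m ∈ SF x, G (fun i => kr m i) -
        ∫ ω, G (pX Y X ω) ∂μ| ≤ η := by
  have h1 : Tendsto (fun x : ℕ => D * ∑ σ ∈ PT Y, |fr Y σ x - ∏ i : DY Y, pr3 i (σ i)|) atTop
      (𝓝 (D * ∑ σ ∈ PT Y, |(∏ i : DY Y, pr3 i (σ i)) - ∏ i : DY Y, pr3 i (σ i)|)) := by
    apply Tendsto.const_mul
    apply tendsto_finsetSum
    intro σ hσ
    exact ((fr_tendsto hσ).sub_const _).abs
  have h2 : D * ∑ σ ∈ PT Y, |(∏ i : DY Y, pr3 i (σ i)) - ∏ i : DY Y, pr3 i (σ i)| = 0 := by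
    simp
  rw [h2] at h1
  filter_upwards [h1.eventually (gt_mem_nhds hη)] with x hx G hG Ω _ μ _ X hX
  rw [avg_pat, hX.integral_pat, ← sum_sub_distrib]
  refine (abs_sum_le_sum_abs _ _).trans (le_trans ?_ hx.le)
  rw [mul_sum]
  apply sum_le_sum
  intro σ _
  rw [← mul_sub, abs_mul]
  exact mul_le_mul_of_nonneg_right (hG σ) (abs_nonneg _)

end

end Pool.Agent.H439.QD
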